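import Mathlib

/-!
# Closed images and the class N(P): basic definitions (helper78)

`InNP X` says that `X` is T1 and `X × Y` is normal for every paracompact Hausdorff space `Y`.
-/

set_option autoImplicit false

namespace Pool.Agent.W3e58c0h78

open Set Topology

/-- The class N(P), in the form used by the problem (normality of all products). -/
def InNP (X : Type) [TopologicalSpace X] : Prop :=
  T1Space X ∧ ∀ (Y : Type) [TopologicalSpace Y] [ParacompactSpace Y] [T2Space Y],
    NormalSpace (X × Y)

/-- An exhaustion of `X`: increasing open sets, each closure inside the next set, with union `X`. -/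
structure Exh (X : Type) [TopologicalSpace X] where
  /-- the sets -/
  G : ℕ → Set X
  isOpen_G : ∀ n, IsOpen (G n)
  closure_G : ∀ n, closure (G n) ⊆ G (n + 1)
  cover_G : ∀ x, ∃ n, x ∈ G n

variable {X : Type} [TopologicalSpace X]

/-- The previous set of an exhaustion; it is empty for `0`. -/
def Exh.prev (E : Exh X) : ℕ → Set X
  | 0 => ∅
  | (j + 1) => E.G j

/-- The trivial exhaustion. -/
def Exh.triv (X : Type) [TopologicalSpace X] : Exh X where
  G := fun _ => univ
  isOpen_G := fun _ => isOpen_univ
  closure_G := fun _ => subset_univ _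
  cover_G := fun _ => ⟨0, mem_univ _⟩

/-- A move: an exhaustion and a number. -/
abbrev Mv (X : Type) [TopologicalSpace X] : Type := Exh X × ℕ

/-- The open annulus of a move. -/
def oA (a : Mv X) : Set X := a.1.G (a.2 + 1) \ closure (a.1.prev a.2)

/-- The closed annulus of a move. -/
def cA (a : Mv X) : Set X := closure (a.1.G (a.2 + 1)) \ a.1.prev a.2

theorem Exh.mono (E : Exh X) : Monotone E.G :=
  monotone_nat_of_le_succ fun n => subset_closure.trans (E.closure_G n)

theorem Exh.isOpen_prev (E : Exh X) (j : ℕ) : IsOpen (E.prev j) := by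
  cases j with
  | zero => exact isOpen_empty
  | succ j => exact E.isOpen_G j

theorem isOpen_oA (a : Mv X) : IsOpen (oA a) := by
  unfold oA
  exact (a.1.isOpen_G _).sdiff isClosed_closure

theorem isClosed_cA (a : Mv X) : IsClosed (cA a) := by
  unfold cA
  exact isClosed_closure.sdiff (a.1.isOpen_prev _)

theorem oA_subset_cA (a : Mv X) : oA a ⊆ cA a := by
  intro x hx
  exact ⟨subset_closure hx.1, fun h => hx.2 (subset_closure h)⟩

/-- Every point lies in some open annulus of a given exhaustion. -/
theorem exists_mem_oA (E : Exh X) (x : X) : ∃ j, x ∈ oA (E, j) := by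
  classical
  obtain ⟨h0⟩ : Nonempty (∃ n, x ∈ E.G n) := ⟨E.cover_G x⟩
  set k := Nat.find h0 with hk
  have hkx : x ∈ E.G k := Nat.find_spec h0
  rcases Nat.eq_zero_or_pos k with h | h
  · refine ⟨0, E.mono (Nat.zero_le _) (h ▸ hkx), ?_⟩
    simp [Exh.prev]
  · refine ⟨k - 1, ?_, ?_⟩
    · have : k - 1 + 1 = k := Nat.sub_add_cancel h
      show x ∈ E.G (k - 1 + 1)
      rw [this]; exact hkx
    · show x ∉ closure (E.prev (k - 1))
      rcases Nat.eq_zero_or_pos (k - 1) with h1 | h1
      · rw [h1]; simp [Exh.prev]
      · obtain ⟨l, hl⟩ : ∃ l, k - 1 = l + 1 := ⟨k - 2, by omega⟩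
        rw [hl]
        intro hx
        have h2 : x ∈ E.G (l + 1) := E.closure_G l hx
        have h3 : l + 1 < k := by omega
        exact Nat.find_min h0 h3 h2

/-- A point of the closed annulus number `j` which lies in `G m` has `j ≤ m`. -/
theorem le_of_mem_cA {E : Exh X} {j m : ℕ} {x : X} (h : x ∈ cA (E, j)) (hm : x ∈ E.G m) :
    j ≤ m := by
  by_contra hlt
  push Not at hlt
  obtain ⟨l, hl⟩ : ∃ l, j = l + 1 := ⟨j - 1, by omega⟩
  subst hl
  exact h.2 (E.mono (by omega) hm)

theorem mem_G_of_mem_oA {E : Exh X} {j : ℕ} {x : X} (h : x ∈ oA (E, j)) : x ∈ E.G (j + 1) := h.1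

theorem mem_cA_triv (x : X) : x ∈ cA (Exh.triv X, 0) := by
  refine ⟨subset_closure (mem_univ _), ?_⟩
  simp [Exh.prev]

/-- The intersection of the open annuli of the moves of a finite list. -/
def oAs (t : List (Mv X)) : Set X := {x | ∀ a ∈ t, x ∈ oA a}

/-- The intersection of the closed annuli of the moves of a finite list. -/
def cAs (t : List (Mv X)) : Set X := {x | ∀ a ∈ t, x ∈ cA a}

theorem isOpen_oAs (t : List (Mv X)) : IsOpen (oAs t) := by
  induction t with
  | nil => simp [oAs]
  | cons a t ih =>
    have : oAs (a :: t) = oA a ∩ oAs t := by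
      ext x; simp [oAs]
    rw [this]
    exact (isOpen_oA a).inter ih

theorem isClosed_cAs (t : List (Mv X)) : IsClosed (cAs t) := by
  induction t with
  | nil => simp [cAs]
  | cons a t ih =>
    have : cAs (a :: t) = cA a ∩ cAs t := by
      ext x; simp [cAs]
    rw [this]
    exact (isClosed_cA a).inter ih

theorem oAs_subset_cAs (t : List (Mv X)) : oAs t ⊆ cAs t :=
  fun _ hx a ha => oA_subset_cA a (hx a ha)

theorem cAs_append (s t : List (Mv X)) : cAs (s ++ t) = cAs s ∩ cAs t := by
  ext x
  simp only [cAs, List.mem_append, mem_setOf_eq, mem_inter_iff]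
  constructor
  · intro h
    exact ⟨fun a ha => h a (Or.inl ha), fun a ha => h a (Or.inr ha)⟩
  · rintro ⟨h1, h2⟩ a (ha | ha)
    · exact h1 a ha
    · exact h2 a ha

/-- `Pre s τ`: the finite list `s` is an initial segment of the infinite sequence `τ`. -/
def Pre {A : Type} (s : List A) (τ : ℕ → A) : Prop := ∀ i, i < s.length → s[i]? = some (τ i)

end Pool.Agent.W3e58c0h78
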