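import Pool.Agent.W_3e58c0_h78.InstB

/-!
# Preparations for the final statement (helper78)
-/

set_option autoImplicit false

namespace Pool.Agent.W3e58c0h78

open Set Topology

variable {X : Type} [TopologicalSpace X]

theorem InNP.t4 (hX : InNP X) : T4Space X := by
  have _i1 : T1Space X := hX.1
  have _i2 : NormalSpace X := by
    have _i3 := hX.2 PUnit
    exact (Homeomorph.prodPUnit X).symm.isClosedEmbedding.normalSpace
  exact {}

/-- A space homeomorphic to a space in N(P) is in N(P). -/
theorem InNP.homeo {Z : Type} [TopologicalSpace Z] (hX : InNP X) (e : X ≃ₜ Z) : InNP Z := by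
  have _i1 : T1Space X := hX.1
  refine ⟨e.symm.isEmbedding.t1Space, fun Y _ _ _ => ?_⟩
  have _i2 := hX.2 Y
  exact (e.symm.prodCongr (Homeomorph.refl Y)).isClosedEmbedding.normalSpace

/-- The image of a T4 space under a continuous closed surjection is a T4 space. -/
theorem t4_of_closedMap [T4Space X] {Z : Type} [TopologicalSpace Z] {f : X → Z}
    (hf : Continuous f) (hc : IsClosedMap f) (hs : Function.Surjective f) : T4Space Z := by
  have h1 : T1Space Z := by
    refine ⟨fun z => ?_⟩
    obtain ⟨x, rfl⟩ := hs z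
    rw [← image_singleton]
    exact hc _ isClosed_singleton
  have h2 : NormalSpace Z := by
    refine ⟨fun A B hA hB hAB => ?_⟩
    obtain ⟨U, V, hU, hV, hAU, hBV, hUV⟩ :=
      normal_separation (hA.preimage hf) (hB.preimage hf) (hAB.preimage f)
    refine ⟨(f '' Uᶜ)ᶜ, (f '' Vᶜ)ᶜ, (hc _ hU.isClosed_compl).isOpen_compl,
      (hc _ hV.isClosed_compl).isOpen_compl, ?_, ?_, ?_⟩
    · rintro z hz ⟨x, hx, rfl⟩
      exact hx (hAU hz)
    · rintro z hz ⟨x, hx, rfl⟩
      exact hx (hBV hz)
    · rw [disjoint_left]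
      intro z hz1 hz2
      obtain ⟨x, rfl⟩ := hs z
      have hxU : x ∈ U := by
        by_contra h
        exact hz1 ⟨x, h, rfl⟩
      have hxV : x ∈ V := by
        by_contra h
        exact hz2 ⟨x, h, rfl⟩
      exact disjoint_left.1 hUV hxU hxV
  exact {}

/-- First part: continuous images. -/
theorem inNP_of_continuous (hX : InNP X) (S N : ℕ → Set X) (hS : ∀ n, IsCompact (S n))
    (hN : SigmaOrClosure S N) {Z : Type} [TopologicalSpace Z] [T3Space Z] {f : X → Z}
    (hf : Continuous f) (hs : Function.Surjective f) : InNP Z := by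
  have _i1 : T4Space X := hX.t4
  have _i2 : LindelofSpace X := lindelof_mixed hX S N hS hN
  exact ⟨inferInstance, fun Y _ _ _ => normal_prod_of_QCond hX _ (qCond_mixed S N hS hN) hf hs⟩

/-- Second part: closed images. -/
theorem inNP_of_closedMap (hX : InNP X) {Z : Type} [TopologicalSpace Z] {f : X → Z}
    (hf : Continuous f) (hc : IsClosedMap f) (hs : Function.Surjective f)
    (S : ℕ → Set X) (hS : ∀ n, IsCompact (S n)) : InNP (closure (f '' ⋃ n, S n)) := by
  have _i1 : T4Space X := hX.t4
  have _i2 : T4Space Z := t4_of_closedMap hf hc hs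
  set F : Set X := closure (⋃ n, S n) with hF
  have hFc : IsClosed F := isClosed_closure
  have hmaps : MapsTo f F (closure (f '' ⋃ n, S n)) := (mapsTo_image f _).closure hf
  have himg : closure (f '' ⋃ n, S n) ⊆ f '' F :=
    closure_minimal (image_mono subset_closure) (hc _ hFc)
  refine inNP_of_continuous (hX.closed hFc) (fun n => Subtype.val ⁻¹' S n) (fun _ => ∅) ?_ ?_
    (f := hmaps.restrict f F _) (hf.restrict hmaps) ?_
  · intro n
    exact hFc.isClosedEmbedding_subtypeVal.isCompact_preimage (hS n)
  · intro x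
    left
    rw [← preimage_iUnion, closure_subtype, Subtype.image_preimage_coe]
    have : F ∩ ⋃ n, S n = ⋃ n, S n := inter_eq_right.2 subset_closure
    rw [this]
    exact x.2
  · rintro ⟨z, hz⟩
    obtain ⟨x, hx, rfl⟩ := himg hz
    exact ⟨⟨x, hx⟩, rfl⟩

end Pool.Agent.W3e58c0h78
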