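import Pool.Agent.W_3e58c0_h78.Basic

/-!
# Lindelof property from a dense sigma-compact subset (helper78)
-/

set_option autoImplicit false

namespace Pool.Agent.W3e58c0h78

open Set Topology

/-- The space of countable sets of indices, with one limit point. -/
inductive Lind1_Y (ι : Type) : Type
  | lim : Lind1_Y ι
  | pt : {c : Set ι // c.Countable} → Lind1_Y ι

/-- The basic neighbourhoods of the limit point. -/
def Lind1_V {ι : Type} (c₀ : Set ι) : Set (Lind1_Y ι) :=
  {y | ∀ c : {c : Set ι // c.Countable}, y = Lind1_Y.pt c → c₀ ⊆ c.1}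

instance Lind1_top (ι : Type) : TopologicalSpace (Lind1_Y ι) where
  IsOpen O := (Lind1_Y.lim : Lind1_Y ι) ∈ O → ∃ c₀ : Set ι, c₀.Countable ∧ Lind1_V c₀ ⊆ O
  isOpen_univ := fun _ => ⟨∅, Set.countable_empty, subset_univ _⟩
  isOpen_inter := by
    intro s t hs ht h
    obtain ⟨c, hc, hcs⟩ := hs h.1
    obtain ⟨d, hd, hdt⟩ := ht h.2
    refine ⟨c ∪ d, hc.union hd, fun y hy => ⟨hcs fun e he => ?_, hdt fun e he => ?_⟩⟩
    · exact subset_union_left.trans (hy e he)
    · exact subset_union_right.trans (hy e he)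
  isOpen_sUnion := by
    intro s hs h
    obtain ⟨t, ht, hnt⟩ := h
    obtain ⟨c, hc, hct⟩ := hs t ht hnt
    exact ⟨c, hc, hct.trans (subset_sUnion_of_mem ht)⟩

theorem Lind1_isOpen {ι : Type} {O : Set (Lind1_Y ι)} : IsOpen O ↔
    ((Lind1_Y.lim : Lind1_Y ι) ∈ O → ∃ c₀ : Set ι, c₀.Countable ∧ Lind1_V c₀ ⊆ O) :=
  Iff.rfl

theorem Lind1_isOpen_V {ι : Type} {c₀ : Set ι} (h : c₀.Countable) :
    IsOpen (Lind1_V c₀ : Set (Lind1_Y ι)) := fun _ => ⟨c₀, h, subset_rfl⟩

theorem Lind1_none_mem_V {ι : Type} (c₀ : Set ι) :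
    (Lind1_Y.lim : Lind1_Y ι) ∈ (Lind1_V c₀ : Set (Lind1_Y ι)) := by
  intro c hc
  exact absurd hc (fun h => by cases h)

theorem Lind1_some_mem_V {ι : Type} {c₀ : Set ι} {c : {c : Set ι // c.Countable}} :
    (Lind1_Y.pt c : Lind1_Y ι) ∈ (Lind1_V c₀ : Set (Lind1_Y ι)) ↔ c₀ ⊆ c.1 := by
  constructor
  · intro h
    exact h c rfl
  · intro h d hd
    rw [← Lind1_Y.pt.inj hd]
    exact h

theorem Lind1_isOpen_some {ι : Type} (c : {c : Set ι // c.Countable}) :
    IsOpen ({(Lind1_Y.pt c : Lind1_Y ι)} : Set (Lind1_Y ι)) := by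
  intro h
  exact absurd (mem_singleton_iff.1 h) (fun h => by cases h)

theorem Lind1_T2 {ι : Type} (hι : ∀ c : Set ι, c.Countable → ∃ i, i ∉ c) : T2Space (Lind1_Y ι) := by
  have key : ∀ c : {c : Set ι // c.Countable}, ∃ u v : Set (Lind1_Y ι), IsOpen u ∧ IsOpen v ∧
      (Lind1_Y.lim : Lind1_Y ι) ∈ u ∧
      (Lind1_Y.pt c : Lind1_Y ι) ∈ v ∧ Disjoint u v := by
    intro c
    obtain ⟨i, hi⟩ := hι c.1 c.2
    refine ⟨Lind1_V {i}, {(Lind1_Y.pt c : Lind1_Y ι)},
      Lind1_isOpen_V (countable_singleton i), Lind1_isOpen_some c, Lind1_none_mem_V _,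
      mem_singleton _, ?_⟩
    rw [Set.disjoint_singleton_right]
    intro h
    exact hi (Lind1_some_mem_V.1 h (mem_singleton i))
  refine ⟨fun x y hxy => ?_⟩
  rcases x with _ | c
  · rcases y with _ | d
    · exact absurd rfl hxy
    · exact key d
  · rcases y with _ | d
    · obtain ⟨u, v, hu, hv, h1, h2, h3⟩ := key c
      exact ⟨v, u, hv, hu, h2, h1, h3.symm⟩
    · refine ⟨_, _, Lind1_isOpen_some c, Lind1_isOpen_some d, mem_singleton _, mem_singleton _, ?_⟩
      rw [Set.disjoint_singleton]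
      exact hxy

theorem Lind1_para {ι : Type} : ParacompactSpace (Lind1_Y ι) := by
  classical
  refine ⟨fun α s hs hcov => ?_⟩
  have h0 : (Lind1_Y.lim : Lind1_Y ι) ∈ ⋃ a, s a := by
    rw [hcov]
    exact mem_univ _
  obtain ⟨a₀, ha₀⟩ := mem_iUnion.1 h0
  let t : Lind1_Y ι → Set (Lind1_Y ι) := fun y => if y ∈ s a₀ then
    (if y = (Lind1_Y.lim : Lind1_Y ι) then s a₀ else ∅) else {y}
  have htn : t (Lind1_Y.lim : Lind1_Y ι) = s a₀ := by
    simp only [t, if_pos ha₀, if_true]
  have hopen : ∀ y : Lind1_Y ι, y ≠ (Lind1_Y.lim : Lind1_Y ι) →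
      IsOpen ({y} : Set (Lind1_Y ι)) := by
    intro y hy h
    exact absurd (mem_singleton_iff.1 h).symm hy
  refine ⟨Lind1_Y ι, t, ?_, ?_, ?_, ?_⟩
  · intro y
    by_cases h : y ∈ s a₀
    · by_cases h' : y = (Lind1_Y.lim : Lind1_Y ι)
      · rw [h', htn]
        exact hs a₀
      · have : t y = ∅ := by simp only [t, if_pos h, if_neg h']
        rw [this]
        exact isOpen_empty
    · have h' : t y = {y} := by simp only [t, if_neg h]
      rw [h']
      exact hopen y fun h2 => h (by rw [h2]; exact ha₀)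
  · rw [eq_univ_iff_forall]
    intro y
    rw [mem_iUnion]
    by_cases h : y ∈ s a₀
    · exact ⟨(Lind1_Y.lim : Lind1_Y ι), by rw [htn]; exact h⟩
    · refine ⟨y, ?_⟩
      have h' : t y = {y} := by simp only [t, if_neg h]
      rw [h']
      exact mem_singleton y
  · intro y
    by_cases h : y ∈ s a₀
    · refine ⟨s a₀, (hs a₀).mem_nhds h, ?_⟩
      refine (Set.finite_singleton (Lind1_Y.lim : Lind1_Y ι)).subset ?_
      intro z hz
      by_contra hz'
      obtain ⟨w, hw1, hw2⟩ := hz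
      by_cases h3 : z ∈ s a₀
      · have : t z = ∅ := by simp only [t, if_pos h3, if_neg (fun h9 => hz' (mem_singleton_iff.2 h9))]
        rw [this] at hw1
        exact hw1
      · have : t z = {z} := by simp only [t, if_neg h3]
        rw [this] at hw1
        rw [mem_singleton_iff.1 hw1] at hw2
        exact h3 hw2
    · have hy : y ≠ (Lind1_Y.lim : Lind1_Y ι) :=
        fun h2 => h (by rw [h2]; exact ha₀)
      refine ⟨{y}, (hopen y hy).mem_nhds (mem_singleton y), ?_⟩
      refine (Set.finite_singleton y).subset ?_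
      intro z hz
      obtain ⟨w, hw1, hw2⟩ := hz
      rw [mem_singleton_iff.1 hw2] at hw1
      by_cases h3 : z ∈ s a₀
      · by_cases h4 : z = (Lind1_Y.lim : Lind1_Y ι)
        · rw [h4, htn] at hw1
          exact absurd hw1 h
        · have : t z = ∅ := by simp only [t, if_pos h3, if_neg h4]
          rw [this] at hw1
          exact absurd hw1 (notMem_empty y)
      · have : t z = {z} := by simp only [t, if_neg h3]
        rw [this] at hw1
        exact (mem_singleton_iff.1 hw1).symm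
  · intro y
    by_cases h : y ∈ s a₀
    · refine ⟨a₀, ?_⟩
      by_cases h' : y = (Lind1_Y.lim : Lind1_Y ι)
      · rw [h', htn]
      · have : t y = ∅ := by simp only [t, if_pos h, if_neg h']
        rw [this]
        exact empty_subset _
    · have h1 : y ∈ ⋃ a, s a := by
        rw [hcov]
        exact mem_univ _
      obtain ⟨a, ha⟩ := mem_iUnion.1 h1
      refine ⟨a, ?_⟩
      have h' : t y = {y} := by simp only [t, if_neg h]
      rw [h', singleton_subset_iff]
      exact ha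

/-- If `X` is in N(P) and has a dense sigma-compact subset then `X` is Lindelof.
Proof. Suppose that an open cover `𝒰` (a set of open sets) of `X` has no countable subcover. Let
`I` be the type of countable subsets of `𝒰` and let `Y = Option I`, where the points `some c` are
isolated and the basic neighbourhoods of `none` are `{none} ∪ {some c | c₀ ⊆ c}`, `c₀ : I`. `Y` is
Hausdorff: given `c : I`, as `c` does not cover `X`, there is `U ∈ 𝒰` not in `c`, and the neighbourhood
given by `c₀ = {U}` does not contain `some c`. `Y` is paracompact: it has only one point which is not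
isolated (refine a cover by one open set `O` around `none` and the singletons outside `O`). The set
`B = {(x, some c) | x ∉ ⋃₀ c}` is closed in `X × Y` (if `x ∈ U ∈ 𝒰` then
`U × ({none} ∪ {some c | U ∈ c})` is a neighbourhood of `(x, none)` which misses `B`), and
`A = {(x, none)}` is closed. By normality there are disjoint open sets `O ⊇ B` and `O' ⊇ A`. Let
`H c = {x | (x, some c) ∈ O}`, an open set containing the complement of `⋃₀ c`. For every `n`, by the
tube lemma for the compact set `S n` and `none`, there is `c n : I` such that `H c ∩ S n = ∅` for all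
`c ⊇ c n`. Let `c` be the union of all `c n`. Then `H c` is an open set which misses the dense set
`⋃ n, S n`, so it is empty, and `⋃₀ c = X`, a contradiction. -/
theorem lindelof_of_dense {X : Type} [TopologicalSpace X] (hX : InNP X) (S : ℕ → Set X)
    (hS : ∀ n, IsCompact (S n)) (hd : Dense (⋃ n, S n)) : LindelofSpace X := by
  refine ⟨isLindelof_of_countable_subcover ?_⟩
  intro ι U hU hcov
  by_contra hno
  push Not at hno
  have hι : ∀ c : Set ι, c.Countable → ∃ i, i ∉ c := by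
    intro c hc
    by_contra h
    push Not at h
    apply hno c hc
    intro x hx
    obtain ⟨i, hi⟩ := mem_iUnion.1 (hcov hx)
    exact mem_iUnion₂.2 ⟨i, h i, hi⟩
  have := Lind1_T2 hι
  have := Lind1_para (ι := ι)
  have := hX.2 (Lind1_Y ι)
  set A : Set (X × Lind1_Y ι) := {p | p.2 = (Lind1_Y.lim : Lind1_Y ι)} with hA
  set B : Set (X × Lind1_Y ι) := {p | ∃ c : {c : Set ι // c.Countable}, p.2 = Lind1_Y.pt c ∧
    ∀ i ∈ c.1, p.1 ∉ U i} with hB
  have hAc : IsClosed A := by
    have h1 : IsClosed ({(Lind1_Y.lim : Lind1_Y ι)} : Set (Lind1_Y ι)) := by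
      refine ⟨fun h => ?_⟩
      exact absurd (mem_singleton _) h
    exact h1.preimage continuous_snd
  have hBc : IsClosed B := by
    refine ⟨isOpen_prod_iff.2 ?_⟩
    intro x y hxy
    rcases y with _ | c
    · obtain ⟨i, hi⟩ := mem_iUnion.1 (hcov (mem_univ x))
      refine ⟨U i, Lind1_V {i}, hU i, Lind1_isOpen_V (countable_singleton i), hi,
        Lind1_none_mem_V _, ?_⟩
      rintro ⟨x', y'⟩ ⟨h1, h2⟩ ⟨c, hc, h3⟩
      exact h3 i (h2 c hc (mem_singleton i)) h1
    · have h1 : ∃ i ∈ c.1, x ∈ U i := by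
        by_contra h
        push Not at h
        exact hxy ⟨c, rfl, h⟩
      obtain ⟨i, hi, hxi⟩ := h1
      refine ⟨U i, {(Lind1_Y.pt c : Lind1_Y ι)}, hU i, Lind1_isOpen_some c, hxi,
        mem_singleton _, ?_⟩
      rintro ⟨x', y'⟩ ⟨h1, h2⟩ ⟨d, hd, h3⟩
      have h4 : c = d := Lind1_Y.pt.inj ((mem_singleton_iff.1 h2).symm.trans hd)
      exact h3 i (h4 ▸ hi) h1
  have hAB : Disjoint B A := by
    rw [Set.disjoint_left]
    rintro ⟨x, y⟩ ⟨c, hc, -⟩ h2
    exact absurd (hc.symm.trans h2) (fun h => by cases h)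
  obtain ⟨O, O', hO, hO', hBO, hAO', hdis⟩ := normal_separation hBc hAc hAB
  have htube : ∀ n, ∃ c₀ : Set ι, c₀.Countable ∧ ∀ c : {c : Set ι // c.Countable}, c₀ ⊆ c.1 →
      ∀ x ∈ S n, (x, (Lind1_Y.pt c : Lind1_Y ι)) ∉ O := by
    intro n
    have h1 : S n ×ˢ ({(Lind1_Y.lim : Lind1_Y ι)} : Set (Lind1_Y ι)) ⊆ O' := by
      rintro ⟨x, y⟩ ⟨-, h2⟩
      exact hAO' (mem_singleton_iff.1 h2)
    obtain ⟨u, v, hu, hv, hSu, hnv, huv⟩ :=
      generalized_tube_lemma (hS n) isCompact_singleton hO' h1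
    obtain ⟨c₀, hc₀, hcv⟩ := hv (hnv (mem_singleton _))
    refine ⟨c₀, hc₀, fun c hc x hx hxO => ?_⟩
    have h3 : (x, (Lind1_Y.pt c : Lind1_Y ι)) ∈ O' :=
      huv ⟨hSu hx, hcv (Lind1_some_mem_V.2 hc)⟩
    exact Set.disjoint_left.1 hdis hxO h3
  choose c₀ hc₀ hc₁ using htube
  let c : {c : Set ι // c.Countable} := ⟨⋃ n, c₀ n, countable_iUnion hc₀⟩
  have hH : IsOpen {x : X | (x, (Lind1_Y.pt c : Lind1_Y ι)) ∈ O} :=
    hO.preimage (Continuous.prodMk continuous_id continuous_const)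
  have hH0 : {x : X | (x, (Lind1_Y.pt c : Lind1_Y ι)) ∈ O} = ∅ := by
    by_contra hne
    obtain ⟨x, hx1, hx2⟩ := hd.inter_open_nonempty _ hH (nonempty_iff_ne_empty.2 hne)
    obtain ⟨n, hn⟩ := mem_iUnion.1 hx2
    exact hc₁ n c (subset_iUnion c₀ n) x hn hx1
  apply hno (⋃ n, c₀ n) (countable_iUnion hc₀)
  intro x _
  by_contra hx
  have h1 : (x, (Lind1_Y.pt c : Lind1_Y ι)) ∈ B := by
    refine ⟨c, rfl, fun i hi hxi => hx ?_⟩
    exact mem_iUnion₂.2 ⟨i, hi, hxi⟩
  have h2 : x ∈ {x : X | (x, (Lind1_Y.pt c : Lind1_Y ι)) ∈ O} := hBO h1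
  rw [hH0] at h2
  exact h2

end Pool.Agent.W3e58c0h78
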