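import Pool.Agent.W_3e58c0_h78.Main
import Pool.Agent.W_3e58c0_h78.Lind1

/-!
# Two classes of spaces to which the main theorem applies (helper78)
-/

set_option autoImplicit false

namespace Pool.Agent.W3e58c0h78

open Set Topology

variable {X : Type} [TopologicalSpace X]

/-- A dense sigma-compact subset gives the condition `QCond`. -/
theorem qCond_of_dense (S : ℕ → Set X) (hS : ∀ n, IsCompact (S n)) (hd : Dense (⋃ n, S n)) :
    QCond (fun m (_ : List (Mv X)) => S m) := by
  refine ⟨fun m _ => hS m, ?_⟩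
  rintro s _ ⟨x, hx⟩
  exact ⟨x, hd x, hx⟩

/-- `X` is a Lindelof Sigma space: there is a countable network modulo compact sets. -/
def LSigma (X : Type) [TopologicalSpace X] : Prop :=
  ∃ N : ℕ → Set X, ∀ x, ∃ C : Set X, IsCompact C ∧
    ∀ U, IsOpen U → C ⊆ U → ∃ i, x ∈ N i ∧ N i ⊆ U

open Classical in
/-- The choice of points in the Lindelof Sigma case. -/
noncomputable def QS (N : ℕ → Set X) (m : ℕ) (s : List (Mv X)) : Set X :=
  if h : (N m.unpair.1 ∩ cAs s).Nonempty then {h.some} else ∅

theorem cAs_anti_of_append {s s' : List (Mv X)} (h : ∃ u, s' = s ++ u) : cAs s' ⊆ cAs s := by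
  obtain ⟨u, rfl⟩ := h
  rw [cAs_append]
  exact inter_subset_left

/-- A countable network modulo compact sets gives the condition `QCond`. -/
theorem qCond_of_network [T2Space X] (N : ℕ → Set X)
    (hN : ∀ x, ∃ C : Set X, IsCompact C ∧ ∀ U, IsOpen U → C ⊆ U → ∃ i, x ∈ N i ∧ N i ⊆ U) :
    QCond (QS N) := by
  classical
  refine ⟨fun m s => ?_, ?_⟩
  · unfold QS
    split_ifs
    · exact isCompact_singleton
    · exact isCompact_empty
  rintro s hs ⟨x, hx⟩
  obtain ⟨C, hC, hCU⟩ := hN x
  have hanti : Antitone (fun m => cAs (s m)) :=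
    antitone_nat_of_succ_le fun m => cAs_anti_of_append (hs m)
  set D : Set X := closure (⋃ m, QS N m (s m)) with hD
  have hne : ∀ m, (C ∩ (D ∩ cAs (s m))).Nonempty := by
    intro m
    by_contra hcon
    have hsub : C ⊆ (D ∩ cAs (s m))ᶜ := fun z hz hz' => hcon ⟨z, hz, hz'⟩
    obtain ⟨i, hi1, hi2⟩ := hCU _ (isClosed_closure.inter (isClosed_cAs _)).isOpen_compl hsub
    set m' := Nat.pair i m with hm'
    have hmm : m ≤ m' := Nat.right_le_pair i m
    have hne' : (N m'.unpair.1 ∩ cAs (s m')).Nonempty := by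
      refine ⟨x, ?_, hx m'⟩
      rw [hm', Nat.unpair_pair]
      exact hi1
    have hmem : hne'.some ∈ QS N m' (s m') := by
      unfold QS
      rw [dif_pos hne']
      exact mem_singleton _
    have h1 := hne'.some_mem
    have hi' : m'.unpair.1 = i := by rw [hm', Nat.unpair_pair]
    have h2 : hne'.some ∈ N i := hi' ▸ h1.1
    exact hi2 h2 ⟨subset_closure (mem_iUnion.2 ⟨m', hmem⟩), hanti hmm h1.2⟩
  obtain ⟨x', hx'⟩ := IsCompact.nonempty_iInter_of_directed_nonempty_isCompact_isClosed
    (fun m => C ∩ (D ∩ cAs (s m)))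
    (by
      refine (antitone_nat_of_succ_le fun m => ?_).directed_ge
      exact inter_subset_inter_right _ (inter_subset_inter_right _ (hanti (Nat.le_succ m))))
    hne
    (fun m => hC.inter_right (isClosed_closure.inter (isClosed_cAs _)))
    (fun m => hC.isClosed.inter (isClosed_closure.inter (isClosed_cAs _)))
  exact ⟨x', (mem_iInter.1 hx' 0).2.1, fun m => (mem_iInter.1 hx' m).2.2⟩

end Pool.Agent.W3e58c0h78
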