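import Pool.Agent.W_3e58c0_h78.Inst

/-!
# The closure of a sigma-compact set together with a Lindelof Sigma part (helper78)
-/

set_option autoImplicit false

namespace Pool.Agent.W3e58c0h78

open Set Topology

variable {X : Type} [TopologicalSpace X]

/-- Every point is in the closure of the union of the sets `S n` or has a compact set modulo which
the family `N` is a network at the point. -/
def SigmaOrClosure (S N : ℕ → Set X) : Prop :=
  ∀ x, x ∈ closure (⋃ n, S n) ∨ ∃ C : Set X, IsCompact C ∧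
    ∀ U, IsOpen U → C ⊆ U → ∃ i, x ∈ N i ∧ N i ⊆ U

theorem qCond_mixed [T2Space X] (S N : ℕ → Set X) (hS : ∀ n, IsCompact (S n))
    (hN : SigmaOrClosure S N) :
    QCond (fun m (s : List (Mv X)) => S m ∪ QS N m s) := by
  classical
  refine ⟨fun m s => (hS m).union ?_, ?_⟩
  · unfold QS
    split_ifs
    · exact isCompact_singleton
    · exact isCompact_empty
  rintro s hs ⟨x, hx⟩
  rcases hN x with hx0 | ⟨C, hC, hCU⟩
  · refine ⟨x, closure_mono ?_ hx0, hx⟩
    exact iUnion_mono fun m => subset_union_left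
  have hanti : Antitone (fun m => cAs (s m)) :=
    antitone_nat_of_succ_le fun m => cAs_anti_of_append (hs m)
  set D : Set X := closure (⋃ m, S m ∪ QS N m (s m)) with hD
  have hne : ∀ m, (C ∩ (D ∩ cAs (s m))).Nonempty := by
    intro m
    by_contra hcon
    have hsub : C ⊆ (D ∩ cAs (s m))ᶜ := fun z hz hz' => hcon ⟨z, hz, hz'⟩
    obtain ⟨i, hi1, hi2⟩ := hCU _ (isClosed_closure.inter (isClosed_cAs _)).isOpen_compl hsub
    set m' := Nat.pair i m with hm'
    have hmm : m ≤ m' := Nat.right_le_pair i m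
    have hne' : (N m'.unpair.1 ∩ cAs (s m')).Nonempty := by
      refine ⟨x, ?_, hx m'⟩
      rw [hm', Nat.unpair_pair]
      exact hi1
    have hmem : hne'.some ∈ QS N m' (s m') := by
      unfold QS
      rw [dif_pos hne']
      exact mem_singleton _
    have h1 := hne'.some_mem
    have hi' : m'.unpair.1 = i := by rw [hm', Nat.unpair_pair]
    have h2 : hne'.some ∈ N i := hi' ▸ h1.1
    exact hi2 h2 ⟨subset_closure (mem_iUnion.2 ⟨m', Or.inr hmem⟩), hanti hmm h1.2⟩
  obtain ⟨x', hx'⟩ := IsCompact.nonempty_iInter_of_directed_nonempty_isCompact_isClosed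
    (fun m => C ∩ (D ∩ cAs (s m)))
    (by
      refine (antitone_nat_of_succ_le fun m => ?_).directed_ge
      exact inter_subset_inter_right _ (inter_subset_inter_right _ (hanti (Nat.le_succ m))))
    hne
    (fun m => hC.inter_right (isClosed_closure.inter (isClosed_cAs _)))
    (fun m => hC.isClosed.inter (isClosed_closure.inter (isClosed_cAs _)))
  exact ⟨x', (mem_iInter.1 hx' 0).2.1, fun m => (mem_iInter.1 hx' m).2.2⟩

/-- A closed subspace of a space in N(P) is in N(P). -/
theorem InNP.closed (hX : InNP X) {F : Set X} (hF : IsClosed F) : InNP F := by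
  have _i1 : T1Space X := hX.1
  refine ⟨inferInstance, fun Y _ _ _ => ?_⟩
  have _i2 := hX.2 Y
  have h1 : IsClosedEmbedding (Prod.map (Subtype.val : F → X) (id : Y → Y)) := by
    refine ⟨?_, ?_⟩
    · exact IsEmbedding.subtypeVal.prodMap IsEmbedding.id
    · rw [range_prodMap, Subtype.range_coe, range_id]
      exact hF.prod isClosed_univ
  exact h1.normalSpace

/-- The closure of a sigma-compact subset of a space in N(P) is Lindelof. -/
theorem isLindelof_closure_of_sigmaCompact (hX : InNP X) (S : ℕ → Set X)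
    (hS : ∀ n, IsCompact (S n)) : IsLindelof (closure (⋃ n, S n)) := by
  set F : Set X := closure (⋃ n, S n) with hF
  have hFc : IsClosed F := isClosed_closure
  rw [isLindelof_iff_lindelofSpace]
  refine lindelof_of_dense (hX.closed hFc) (fun n => Subtype.val ⁻¹' S n) ?_ ?_
  · intro n
    exact hFc.isClosedEmbedding_subtypeVal.isCompact_preimage (hS n)
  · rw [← preimage_iUnion]
    intro x
    rw [closure_subtype, Subtype.image_preimage_coe]
    have : F ∩ ⋃ n, S n = ⋃ n, S n := inter_eq_right.2 subset_closure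
    rw [this]
    exact x.2

/-- The Lindelof property in the mixed case. -/
theorem lindelof_mixed (hX : InNP X) (S N : ℕ → Set X) (hS : ∀ n, IsCompact (S n))
    (hN : SigmaOrClosure S N) : LindelofSpace X := by
  classical
  rw [← isLindelof_univ_iff]
  refine isLindelof_of_countable_subcover ?_
  intro ι U hUo hcov
  have hcovx : ∀ x, x ∈ ⋃ j, U j := fun x => hcov (mem_univ x)
  obtain ⟨r, hr, hr2⟩ := (isLindelof_closure_of_sigmaCompact hX S hS).elim_countable_subcover U hUo
    (fun x _ => hcovx x)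
  have key : ∀ x : X, x ∉ closure (⋃ n, S n) →
      ∃ t : Finset ι, ∃ i : ℕ, x ∈ N i ∧ N i ⊆ ⋃ j ∈ t, U j := by
    intro x hx
    rcases hN x with h0 | ⟨C, hC, hCN⟩
    · exact absurd h0 hx
    obtain ⟨t, ht⟩ := hC.elim_finite_subcover U hUo (fun y _ => hcovx y)
    obtain ⟨i, hi1, hi2⟩ := hCN (⋃ j ∈ t, U j) (isOpen_biUnion fun j _ => hUo j) ht
    exact ⟨t, i, hi1, hi2⟩
  let good : ℕ → Prop := fun i => ∃ t : Finset ι, N i ⊆ ⋃ j ∈ t, U j
  let T : ℕ → Finset ι := fun i => if h : good i then h.choose else ∅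
  have hT : ∀ i, good i → N i ⊆ ⋃ j ∈ T i, U j := by
    intro i h
    have : T i = h.choose := dif_pos h
    rw [this]
    exact h.choose_spec
  refine ⟨r ∪ ⋃ i, (T i : Set ι), hr.union (countable_iUnion fun i => (T i).countable_toSet), ?_⟩
  intro x _
  by_cases hx : x ∈ closure (⋃ n, S n)
  · have h3 := hr2 hx
    simp only [mem_iUnion] at h3 ⊢
    obtain ⟨j, hj1, hj2⟩ := h3
    exact ⟨j, Or.inl hj1, hj2⟩
  · obtain ⟨t, i, hi1, hi2⟩ := key x hx
    have h3 := hT i ⟨t, hi2⟩ hi1
    simp only [mem_iUnion] at h3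
    obtain ⟨j, hj1, hj2⟩ := h3
    simp only [mem_iUnion]
    exact ⟨j, Or.inr (mem_iUnion.2 ⟨i, hj1⟩), hj2⟩

end Pool.Agent.W3e58c0h78
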