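import Pool.Agent.W_3e58c0_h78.TreeBasic

/-!
# The tree space is paracompact (helper78)
-/

set_option autoImplicit false

namespace Pool.Agent.W3e58c0h78

open Set Topology

variable {E P : Type} (τ : P → ℕ → E × ℕ)

theorem TreePara_mem_cone_iff {s : List (E × ℕ)} {x : E × ℕ} {q : TSp τ} :
    q ∈ Cone τ (s ++ [x]) ↔ (∀ i, i < s.length → path τ q i = s[i]?) ∧
      path τ q s.length = some x := by
  constructor
  · intro h
    refine ⟨fun i hi => ?_, ?_⟩
    · rw [h i (by rw [List.length_append]; omega), List.getElem?_append_left hi]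
    · rw [h s.length (by rw [List.length_append, List.length_singleton]; omega)]
      rw [List.getElem?_append_right le_rfl, Nat.sub_self]
      rfl
  · rintro ⟨h1, h2⟩ i hi
    rw [List.length_append, List.length_singleton] at hi
    rcases Nat.lt_succ_iff_lt_or_eq.1 hi with h | h
    · rw [h1 i h, List.getElem?_append_left h]
    · subst h
      rw [h2, List.getElem?_append_right le_rfl, Nat.sub_self]
      rfl

/-- the neighbourhoods are nested -/
theorem TreePara_nested {s₁ s₂ : List (E × ℕ)} {e₁ e₂ : E} {n₂ : ℕ}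
    (h : (TPt.leaf s₁ e₁ : TSp τ) ∈ Nb τ s₂ e₂ n₂)
    (hne : (TPt.leaf s₁ e₁ : TSp τ) ≠ TPt.leaf s₂ e₂) (m : ℕ) : Nb τ s₁ e₁ m ⊆ Nb τ s₂ e₂ n₂ := by
  rcases h with h | ⟨j, hj, h⟩
  · exact absurd h hne
  have h0 := h
  rw [TreePara_mem_cone_iff] at h
  obtain ⟨h1, h2⟩ := h
  have h2' : s₁[s₂.length]? = some (e₂, j) := h2
  have hlen : s₂.length < s₁.length := by
    by_contra hc
    rw [List.getElem?_eq_none (not_lt.1 hc)] at h2'
    cases h2'
  rintro q (hq | ⟨j', hj', hq⟩)
  · rw [hq]
    exact Or.inr ⟨j, hj, h0⟩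
  · refine Or.inr ⟨j, hj, ?_⟩
    rw [TreePara_mem_cone_iff] at hq ⊢
    refine ⟨fun i hi => ?_, ?_⟩
    · rw [hq.1 i (hi.trans hlen)]
      exact h1 i hi
    · rw [hq.1 _ hlen]
      exact h2'

theorem TreePara_isOpen (s : List (E × ℕ)) (e : E) (n : ℕ) : IsOpen (Nb τ s e n) := by
  intro s' e' h
  by_cases he : (TPt.leaf s' e' : TSp τ) = TPt.leaf s e
  · injection he with h1 h2
    subst h1
    subst h2
    exact ⟨n, Subset.rfl⟩
  · exact ⟨0, TreePara_nested τ h he 0⟩

/-- a leaf in a neighbourhood of another leaf has a longer list -/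
theorem TreePara_length {s₁ s₂ : List (E × ℕ)} {e₁ e₂ : E} {n₂ : ℕ}
    (h : (TPt.leaf s₁ e₁ : TSp τ) ∈ Nb τ s₂ e₂ n₂)
    (hne : (TPt.leaf s₁ e₁ : TSp τ) ≠ TPt.leaf s₂ e₂) : s₂.length < s₁.length := by
  rcases h with h | ⟨j, hj, h⟩
  · exact absurd h hne
  rw [TreePara_mem_cone_iff] at h
  have h2' : s₁[s₂.length]? = some (e₂, j) := h.2
  by_contra hc
  rw [List.getElem?_eq_none (not_lt.1 hc)] at h2'
  cases h2'

/-- two neighbourhoods which meet are comparable -/
theorem TreePara_meet {s s' : List (E × ℕ)} {e e' : E} {n n' : ℕ} {q : TSp τ}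
    (h : q ∈ Nb τ s e n) (h' : q ∈ Nb τ s' e' n') (hl : s.length ≤ s'.length) :
    (TPt.leaf s' e' : TSp τ) ∈ Nb τ s e n := by
  rcases h' with h' | ⟨j', hj', h'⟩
  · rw [← h']
    exact h
  rw [TreePara_mem_cone_iff] at h'
  rcases h with h | ⟨j, hj, h⟩
  · subst h
    have h2 : s[s'.length]? = some (e', j') := h'.2
    rw [List.getElem?_eq_none hl] at h2
    cases h2
  · rw [TreePara_mem_cone_iff] at h
    rcases hl.lt_or_eq with hlt | heq
    · refine Or.inr ⟨j, hj, ?_⟩
      rw [TreePara_mem_cone_iff]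
      refine ⟨fun i hi => ?_, ?_⟩
      · rw [← h.1 i hi, h'.1 i (hi.trans hlt)]
        rfl
      · rw [← h.2, h'.1 _ hlt]
        rfl
    · left
      have hs : s = s' := by
        apply List.ext_getElem?
        intro i
        rcases lt_or_ge i s.length with hi | hi
        · rw [← h.1 i hi, h'.1 i (by omega)]
        · rw [List.getElem?_eq_none hi, List.getElem?_eq_none (by omega)]
      subst hs
      have h3 := h.2.symm.trans h'.2
      injection h3 with h3
      injection h3 with h4 h5
      subst h4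
      rfl

/-- The tree space is paracompact. Proof: let an open cover be given. For each leaf `l = (s, e)`
choose `i l` and `n l` with `Nb τ s e (n l) ⊆ U (i l)`. Fix a point `q`. The leaves `l = (s, e)` with
`q ∈ Nb τ s e (n l)` are determined by the length of `s` (`s` is an initial part of the path of `q`,
and either `q = l` or `e` is the first component of the next entry of the path of `q`). Let `c q` be
the one with the shortest `s` if there is any (with `c q = q` itself if there is none, and then `q`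
is isolated). The fibres of `c` are open: if `l = (s, e)` is in the image of `c`, then the fibre over
`l` is the whole of `Nb τ s e (n l)` (open: see `isOpen_Nb` in TreeT2; or prove openness directly):
if `q ∈ Nb τ s e (n l)` and `q ∈ Nb τ s₁ e₁ (n l₁)` with `s₁` shorter than `s`, then
`s₁ ++ [(e₁, j₁)]` with some `j₁ ≥ n l₁` is an initial part of `s`, hence every point of
`Nb τ s e (n l)` lies in `Nb τ s₁ e₁ (n l₁)`, so that nothing is sent to `l` by `c`. So the
fibres of `c` form a partition of the space into open sets which refines the cover, and such a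
partition is a locally finite open refinement. -/
instance tsp_paracompact : ParacompactSpace (TSp τ) := by
  classical
  refine ⟨fun α U hU hcov => ?_⟩
  have hex : ∀ q : TSp τ, ∃ a, q ∈ U a := by
    intro q
    have : q ∈ ⋃ a, U a := by rw [hcov]; exact mem_univ _
    exact mem_iUnion.1 this
  choose i hi using hex
  have hex2 : ∀ (s : List (E × ℕ)) (e : E), ∃ n, Nb τ s e n ⊆ U (i (TPt.leaf s e)) :=
    fun s e => hU _ s e (hi _)
  choose n hn using hex2
  -- maximal neighbourhoods
  let M : List (E × ℕ) → E → Prop := fun s e => ∀ s₁ e₁, s₁.length < s.length →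
    (TPt.leaf s e : TSp τ) ∉ Nb τ s₁ e₁ (n s₁ e₁)
  have hself : ∀ s e m, (TPt.leaf s e : TSp τ) ∈ Nb τ s e m := fun s e m => Or.inl rfl
  have key : ∀ (k : ℕ) (q : TSp τ) s e, s.length = k → q ∈ Nb τ s e (n s e) →
      ∃ s₁ e₁, M s₁ e₁ ∧ q ∈ Nb τ s₁ e₁ (n s₁ e₁) := by
    intro k
    induction k using Nat.strong_induction_on with
    | _ k ih =>
      intro q s e hs hq
      by_cases hM : M s e
      · exact ⟨s, e, hM, hq⟩
      · obtain ⟨s₁, hM1⟩ := not_forall.1 hM
        obtain ⟨e₁, hM2⟩ := not_forall.1 hM1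
        obtain ⟨hlt, hM3⟩ := Classical.not_imp.1 hM2
        have hM4 := not_not.1 hM3
        have hne : (TPt.leaf s e : TSp τ) ≠ TPt.leaf s₁ e₁ := by
          intro h
          injection h with h1 h2
          rw [h1] at hlt
          exact lt_irrefl _ hlt
        exact ih s₁.length (by omega) q s₁ e₁ rfl (TreePara_nested τ hM4 hne _ hq)
  have hdis : ∀ s e s' e' q, M s e → M s' e' → q ∈ Nb τ s e (n s e) → q ∈ Nb τ s' e' (n s' e') →
      (TPt.leaf s e : TSp τ) = TPt.leaf s' e' := by
    intro s e s' e' q hM hM' hq hq'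
    rcases le_total s.length s'.length with hl | hl
    · by_contra hne
      have h1 := TreePara_meet τ hq hq' hl
      exact hM' s e (TreePara_length τ h1 (Ne.symm hne)) h1
    · by_contra hne
      have h1 := TreePara_meet τ hq' hq hl
      exact hM s' e' (TreePara_length τ h1 hne) h1
  let t : TSp τ → Set (TSp τ) := fun b => match b with
    | TPt.leaf s e => {q | M s e ∧ q ∈ Nb τ s e (n s e)}
    | TPt.pt p => {q | q = TPt.pt p ∧ ∀ s e, M s e → (TPt.pt p : TSp τ) ∉ Nb τ s e (n s e)}
  have ht1 : ∀ s e q, q ∈ t (TPt.leaf s e) ↔ M s e ∧ q ∈ Nb τ s e (n s e) := fun s e q => Iff.rfl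
  have ht2 : ∀ p q, q ∈ t (TPt.pt p) ↔ q = TPt.pt p ∧
      ∀ s e, M s e → (TPt.pt p : TSp τ) ∉ Nb τ s e (n s e) := fun p q => Iff.rfl
  have htopen : ∀ b, IsOpen (t b) := by
    intro b
    cases b with
    | leaf s e =>
      by_cases hM : M s e
      · have : t (TPt.leaf s e) = Nb τ s e (n s e) := by
          ext q
          rw [ht1]
          exact ⟨fun h => h.2, fun h => ⟨hM, h⟩⟩
        rw [this]
        exact TreePara_isOpen τ s e _
      · have : t (TPt.leaf s e) = ∅ := by
          ext q
          rw [ht1]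
          exact ⟨fun h => absurd h.1 hM, fun h => absurd h (Set.notMem_empty _)⟩
        rw [this]
        exact isOpen_empty
    | pt p =>
      by_cases hp : ∀ s e, M s e → (TPt.pt p : TSp τ) ∉ Nb τ s e (n s e)
      · have : t (TPt.pt p) = {(TPt.pt p : TSp τ)} := by
          ext q
          rw [ht2]
          exact ⟨fun h => h.1, fun h => ⟨h, hp⟩⟩
        rw [this]
        exact isOpen_pt τ p
      · have : t (TPt.pt p) = ∅ := by
          ext q
          rw [ht2]
          exact ⟨fun h => absurd h.2 hp, fun h => absurd h (Set.notMem_empty _)⟩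
        rw [this]
        exact isOpen_empty
  have htcov : ∀ q, ∃ b, q ∈ t b := by
    intro q
    cases q with
    | leaf s e =>
      obtain ⟨s₁, e₁, h1, h2⟩ := key s.length (TPt.leaf s e) s e rfl (hself s e _)
      exact ⟨TPt.leaf s₁ e₁, (ht1 _ _ _).2 ⟨h1, h2⟩⟩
    | pt p =>
      by_cases hp : ∀ s e, M s e → (TPt.pt p : TSp τ) ∉ Nb τ s e (n s e)
      · exact ⟨TPt.pt p, (ht2 _ _).2 ⟨rfl, hp⟩⟩
      · obtain ⟨s, hp⟩ := not_forall.1 hp
        obtain ⟨e, hp⟩ := not_forall.1 hp
        obtain ⟨hM, hp⟩ := Classical.not_imp.1 hp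
        exact ⟨TPt.leaf s e, (ht1 _ _ _).2 ⟨hM, not_not.1 hp⟩⟩
  have htdis : ∀ b b' q, q ∈ t b → q ∈ t b' → b = b' := by
    intro b b' q hb hb'
    cases b with
    | leaf s e =>
      cases b' with
      | leaf s' e' => exact hdis s e s' e' q hb.1 hb'.1 hb.2 hb'.2
      | pt p' =>
        obtain ⟨h1, h2⟩ := (ht2 _ _).1 hb'
        subst h1
        exact absurd hb.2 (h2 s e hb.1)
    | pt p =>
      obtain ⟨h1, h2⟩ := (ht2 _ _).1 hb
      subst h1
      cases b' with
      | leaf s' e' => exact absurd hb'.2 (h2 s' e' hb'.1)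
      | pt p' => exact ((ht2 _ _).1 hb').1
  refine ⟨TSp τ, t, htopen, ?_, ?_, ?_⟩
  · rw [eq_univ_iff_forall]
    intro q
    exact mem_iUnion.2 (htcov q)
  · intro q
    obtain ⟨b, hb⟩ := htcov q
    refine ⟨t b, (htopen b).mem_nhds hb, (finite_singleton b).subset ?_⟩
    rintro b' ⟨q', h1, h2⟩
    exact htdis b' b q' h1 h2
  · intro b
    refine ⟨i b, ?_⟩
    cases b with
    | leaf s e => exact fun q hq => hn s e hq.2
    | pt p =>
      intro q hq
      rw [((ht2 _ _).1 hq).1]
      exact hi _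

end Pool.Agent.W3e58c0h78
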