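import Pool.Agent.W_3e58c0_h78.TreeT2
import Pool.Agent.W_3e58c0_h78.TreePara

/-!
# The tree space is Hausdorff and paracompact (helper78)
-/
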