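import Pool.Agent.W_3e58c0_h78.Basic

/-!
# Lindelof property from a network, and a compactness criterion (helper78)
-/

set_option autoImplicit false

namespace Pool.Agent.W3e58c0h78

open Set Topology

/-- A countable network modulo compact sets gives the Lindelof property. Proof. Let an open cover be
given. For each `x` let `C` be as in `hN`; `C` is covered by a finite subfamily with union `U`, and
there is `i` with `x ∈ N i ⊆ U`. So the countably many sets `N i` which are contained in the union
of a finite subfamily cover `X`. Choose such a finite subfamily for each such `i`. -/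
theorem lindelof_of_network {X : Type} [TopologicalSpace X] (N : ℕ → Set X)
    (hN : ∀ x, ∃ C : Set X, IsCompact C ∧ ∀ U, IsOpen U → C ⊆ U → ∃ i, x ∈ N i ∧ N i ⊆ U) :
    LindelofSpace X := by
  classical
  rw [← isLindelof_univ_iff]
  refine isLindelof_of_countable_subcover ?_
  intro ι U hUo hcov
  choose C hC hCN using hN
  have key : ∀ x : X, ∃ t : Finset ι, ∃ i : ℕ, x ∈ N i ∧ N i ⊆ ⋃ j ∈ t, U j := by
    intro x
    obtain ⟨t, ht⟩ := (hC x).elim_finite_subcover U hUo
      (fun y _ => hcov (mem_univ y))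
    obtain ⟨i, hi1, hi2⟩ := hCN x (⋃ j ∈ t, U j)
      (isOpen_biUnion fun j _ => hUo j) ht
    exact ⟨t, i, hi1, hi2⟩
  let good : ℕ → Prop := fun i => ∃ t : Finset ι, N i ⊆ ⋃ j ∈ t, U j
  let T : ℕ → Finset ι := fun i => if h : good i then h.choose else ∅
  have hT : ∀ i, good i → N i ⊆ ⋃ j ∈ T i, U j := by
    intro i h
    have : T i = h.choose := dif_pos h
    rw [this]
    exact h.choose_spec
  refine ⟨⋃ i, (T i : Set ι), countable_iUnion fun i => (T i).countable_toSet, ?_⟩
  intro x _
  obtain ⟨t, i, hi1, hi2⟩ := key x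
  have h3 := hT i ⟨t, hi2⟩ hi1
  simp only [mem_iUnion] at h3
  obtain ⟨j, hj1, hj2⟩ := h3
  simp only [mem_iUnion]
  exact ⟨j, ⟨i, hj1⟩, hj2⟩

/-- A closed set `K` in a normal Lindelof T1 space which is contained in some member of every
exhaustion is compact. Proof. Let an open cover of `K` be given; by the Lindelof property there is a
countable subcover `U n`. Put `W n = (⋃ i ≤ n, U i) ∪ Kᶜ`, an increasing open cover of `X`. By
regularity every `x` has an open neighbourhood whose closure is contained in some `W n`; by the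
Lindelof property there are open sets `O n` (`n : ℕ`) covering `X` and numbers `k n` with
`closure (O n) ⊆ W (k n)`. Construct by recursion open sets `G n` and numbers `m n` with
`closure (G n) ⊆ W (m n)`: start with `G 0 = ∅`, and, `closure (G n) ∪ closure (O n)` being a closed
set contained in the open set `W (max (m n) (k n))`, let by normality (`normal_exists_closure_subset`)
`G (n + 1)` be open with `closure (G n) ∪ closure (O n) ⊆ G (n + 1)` and
`closure (G (n + 1)) ⊆ W (max (m n) (k n))`. This is an exhaustion, so `K ⊆ G k` for some `k`, hence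
`K ⊆ W (m k)` and so `K ⊆ ⋃ i ≤ m k, U i`. -/
theorem isCompact_of_exh {X : Type} [TopologicalSpace X] [LindelofSpace X] [NormalSpace X]
    [T1Space X] (K : Set X) (hK : IsClosed K) (h : ∀ E : Exh X, ∃ k, K ⊆ E.G k) :
    IsCompact K := by
  classical
  refine isCompact_of_finite_subcover ?_
  intro ι V hVo hcov
  obtain ⟨r, hr, hcov2⟩ := (hK.isLindelof).elim_countable_subcover V hVo hcov
  rcases r.eq_empty_or_nonempty with hre | hrn
  · refine ⟨∅, ?_⟩
    subst hre
    simpa using hcov2
  obtain ⟨f, hf⟩ := hr.exists_eq_range hrn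
  -- the increasing open cover
  let W : ℕ → Set X := fun n => (⋃ i ∈ Finset.range (n + 1), V (f i)) ∪ Kᶜ
  have hWo : ∀ n, IsOpen (W n) := fun n =>
    (isOpen_biUnion fun i _ => hVo (f i)).union hK.isOpen_compl
  have hWm : Monotone W := by
    intro a b hab
    refine union_subset_union_left _ ?_
    intro x hx
    simp only [mem_iUnion, Finset.mem_range] at hx ⊢
    obtain ⟨i, hi1, hi2⟩ := hx
    exact ⟨i, by omega, hi2⟩
  have hWc : ∀ x, ∃ n, x ∈ W n := by
    intro x
    by_cases hx : x ∈ K
    · have h1 := hcov2 hx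
      rw [hf] at h1
      simp only [mem_iUnion, mem_range] at h1
      obtain ⟨j, ⟨n, hn⟩, hj⟩ := h1
      refine ⟨n, Or.inl ?_⟩
      simp only [mem_iUnion, Finset.mem_range]
      exact ⟨n, by omega, hn ▸ hj⟩
    · exact ⟨0, Or.inr hx⟩
  -- open neighbourhoods with closures inside the cover
  have hO : ∀ x, ∃ (O : Set X) (k : ℕ), IsOpen O ∧ x ∈ O ∧ closure O ⊆ W k := by
    intro x
    obtain ⟨n, hn⟩ := hWc x
    obtain ⟨u, hu1, hu2, hu3⟩ := normal_exists_closure_subset (isClosed_singleton (x := x))
      (hWo n) (singleton_subset_iff.2 hn)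
    exact ⟨u, n, hu1, singleton_subset_iff.1 hu2, hu3⟩
  choose O k hO1 hO2 hO3 using hO
  obtain ⟨c, hc1, hc2⟩ := countable_cover_nhds (fun x => (hO1 x).mem_nhds (hO2 x))
  rcases c.eq_empty_or_nonempty with hce | hcn
  · refine ⟨∅, ?_⟩
    subst hce
    intro x _
    have : x ∈ (univ : Set X) := mem_univ x
    rw [← hc2] at this
    simp at this
  obtain ⟨g, hg⟩ := hc1.exists_eq_range hcn
  -- one step
  have step : ∀ (n : ℕ) (s : {p : Set X × ℕ // IsOpen p.1 ∧ closure p.1 ⊆ W p.2}),
      ∃ t : {p : Set X × ℕ // IsOpen p.1 ∧ closure p.1 ⊆ W p.2},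
        closure s.1.1 ∪ closure (O (g n)) ⊆ t.1.1 := by
    intro n s
    obtain ⟨⟨G, m⟩, hG1, hG2⟩ := s
    have hsub : closure G ∪ closure (O (g n)) ⊆ W (max m (k (g n))) :=
      union_subset (hG2.trans (hWm (le_max_left _ _)))
        ((hO3 (g n)).trans (hWm (le_max_right _ _)))
    obtain ⟨u, hu1, hu2, hu3⟩ := normal_exists_closure_subset
      (isClosed_closure.union isClosed_closure) (hWo _) hsub
    exact ⟨⟨(u, max m (k (g n))), hu1, hu3⟩, hu2⟩
  choose nx hnx using step
  let s0 : {p : Set X × ℕ // IsOpen p.1 ∧ closure p.1 ⊆ W p.2} :=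
    ⟨(∅, 0), isOpen_empty, by simp⟩
  let S : ℕ → {p : Set X × ℕ // IsOpen p.1 ∧ closure p.1 ⊆ W p.2} :=
    fun n => Nat.rec s0 (fun n s => nx n s) n
  have hS : ∀ n, closure (S n).1.1 ∪ closure (O (g n)) ⊆ (S (n + 1)).1.1 := fun n => hnx n (S n)
  let E : Exh X :=
    { G := fun n => (S n).1.1
      isOpen_G := fun n => (S n).2.1
      closure_G := fun n => subset_union_left.trans (hS n)
      cover_G := by
        intro x
        have hx : x ∈ (univ : Set X) := mem_univ x
        rw [← hc2, hg] at hx
        simp only [mem_iUnion, mem_range] at hx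
        obtain ⟨y, ⟨n, hn⟩, hy⟩ := hx
        refine ⟨n + 1, hS n (Or.inr (subset_closure ?_))⟩
        rw [hn]
        exact hy }
  obtain ⟨l, hl⟩ := h E
  have hl2 : K ⊆ W (S l).1.2 := hl.trans (subset_closure.trans (S l).2.2)
  refine ⟨(Finset.range ((S l).1.2 + 1)).image f, ?_⟩
  intro x hx
  rcases hl2 hx with h1 | h1
  · simp only [mem_iUnion, Finset.mem_range] at h1
    obtain ⟨i, hi1, hi2⟩ := h1
    simp only [mem_iUnion, Finset.mem_image, Finset.mem_range]
    exact ⟨f i, ⟨i, hi1, rfl⟩, hi2⟩
  · exact absurd hx h1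

end Pool.Agent.W3e58c0h78
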