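import Mathlib

/-!
# Good rectangles (helper78)
-/

set_option autoImplicit false

namespace Pool.Agent.W3e58c0h78

open Set Topology

/-- The local step: a point outside a closed set has a neighbourhood which is a product of two open
sets whose closures have a product disjoint from the closed set. -/
theorem Rect_local {Z Y : Type} [TopologicalSpace Z] [T3Space Z] [TopologicalSpace Y] [T3Space Y]
    {B : Set (Z × Y)} (hB : IsClosed B) {z : Z} {y : Y} (h : (z, y) ∉ B) :
    ∃ (G : Set Z) (V : Set Y), IsOpen G ∧ z ∈ G ∧ IsOpen V ∧ y ∈ V ∧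
      Disjoint (closure G ×ˢ closure V) B := by
  have h1 : Bᶜ ∈ 𝓝 (z, y) := hB.isOpen_compl.mem_nhds h
  obtain ⟨u, hu, v, hv, huv⟩ := mem_nhds_prod_iff.mp h1
  obtain ⟨s, hs, hsc, hsu⟩ := exists_mem_nhds_isClosed_subset hu
  obtain ⟨t, ht, htc, htv⟩ := exists_mem_nhds_isClosed_subset hv
  refine ⟨interior s, interior t, isOpen_interior, mem_interior_iff_mem_nhds.mpr hs,
    isOpen_interior, mem_interior_iff_mem_nhds.mpr ht, ?_⟩
  rw [Set.disjoint_left]
  rintro ⟨a, b⟩ ⟨ha, hb⟩ hab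
  have ha' : a ∈ s := (closure_minimal interior_subset hsc) ha
  have hb' : b ∈ t := (closure_minimal interior_subset htc) hb
  exact huv ⟨hsu ha', htv hb'⟩ hab

/-- Proof. For `z ∈ K` the point `(z, y)` is not in `A` or not in `B`. By regularity there are open
`G ∋ z` and `V ∋ y` with `closure G ×ˢ closure V` disjoint from `B` (type 1) or from `A` (type 2).
Finitely many of the sets `G` cover `K`; let `V` be the intersection of the corresponding sets `V`,
`G₁` the union of the `G` of type 1 and `G₂` the union of the `G` of type 2. (One can also use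
`IsCompact.induction_on`.) -/
theorem good_rect {Z Y : Type} [TopologicalSpace Z] [T3Space Z] [TopologicalSpace Y] [T3Space Y]
    {A B : Set (Z × Y)} (hA : IsClosed A) (hB : IsClosed B) (hAB : Disjoint A B)
    (K : Set Z) (hK : IsCompact K) (y : Y) :
    ∃ (V : Set Y) (G₁ G₂ : Set Z), IsOpen V ∧ y ∈ V ∧ IsOpen G₁ ∧ IsOpen G₂ ∧ K ⊆ G₁ ∪ G₂ ∧
      Disjoint (closure G₁ ×ˢ closure V) B ∧ Disjoint (closure G₂ ×ˢ closure V) A := by
  refine hK.induction_on (p := fun K => ∃ (V : Set Y) (G₁ G₂ : Set Z), IsOpen V ∧ y ∈ V ∧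
    IsOpen G₁ ∧ IsOpen G₂ ∧ K ⊆ G₁ ∪ G₂ ∧
      Disjoint (closure G₁ ×ˢ closure V) B ∧ Disjoint (closure G₂ ×ˢ closure V) A) ?_ ?_ ?_ ?_
  · exact ⟨univ, ∅, ∅, isOpen_univ, mem_univ y, isOpen_empty, isOpen_empty, empty_subset _,
      by simp, by simp⟩
  · rintro s t hst ⟨V, G₁, G₂, h1, h2, h3, h4, h5, h6, h7⟩
    exact ⟨V, G₁, G₂, h1, h2, h3, h4, hst.trans h5, h6, h7⟩
  · rintro s t ⟨V, G₁, G₂, h1, h2, h3, h4, h5, h6, h7⟩ ⟨V', G₁', G₂', k1, k2, k3, k4, k5, k6, k7⟩
    refine ⟨V ∩ V', G₁ ∪ G₁', G₂ ∪ G₂', h1.inter k1, ⟨h2, k2⟩, h3.union k3, h4.union k4, ?_, ?_,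
      ?_⟩
    · rintro x (hx | hx)
      · rcases h5 hx with h | h
        · exact Or.inl (Or.inl h)
        · exact Or.inr (Or.inl h)
      · rcases k5 hx with h | h
        · exact Or.inl (Or.inr h)
        · exact Or.inr (Or.inr h)
    · rw [closure_union, Set.disjoint_left]
      rintro ⟨a, b⟩ ⟨ha, hb⟩ hab
      have hbV : b ∈ closure V := closure_mono inter_subset_left hb
      have hbV' : b ∈ closure V' := closure_mono inter_subset_right hb
      rcases ha with ha | ha
      · exact Set.disjoint_left.mp h6 ⟨ha, hbV⟩ hab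
      · exact Set.disjoint_left.mp k6 ⟨ha, hbV'⟩ hab
    · rw [closure_union, Set.disjoint_left]
      rintro ⟨a, b⟩ ⟨ha, hb⟩ hab
      have hbV : b ∈ closure V := closure_mono inter_subset_left hb
      have hbV' : b ∈ closure V' := closure_mono inter_subset_right hb
      rcases ha with ha | ha
      · exact Set.disjoint_left.mp h7 ⟨ha, hbV⟩ hab
      · exact Set.disjoint_left.mp k7 ⟨ha, hbV'⟩ hab
  · intro z _
    by_cases hz : (z, y) ∈ B
    · have hzA : (z, y) ∉ A := fun h => Set.disjoint_left.mp hAB h hz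
      obtain ⟨G, V, hG, hzG, hV, hyV, hd⟩ := Rect_local hA hzA
      exact ⟨G, mem_nhdsWithin_of_mem_nhds (hG.mem_nhds hzG), V, ∅, G, hV, hyV, isOpen_empty, hG,
        subset_union_right, by simp, hd⟩
    · obtain ⟨G, V, hG, hzG, hV, hyV, hd⟩ := Rect_local hB hz
      exact ⟨G, mem_nhdsWithin_of_mem_nhds (hG.mem_nhds hzG), V, G, ∅, hV, hyV, hG, isOpen_empty,
        subset_union_left, hd, by simp⟩

end Pool.Agent.W3e58c0h78
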