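import Mathlib

/-!
# The tree of regions (helper78)

`W m s` is, for each number `m` and each list `s`, a family of subsets of `Y` indexed by `Y`;
`t m s y k` is a list. Along a list of pairs `(y, k)` (newest first) we get a position `pos` (a list
over `A`) and a region `reg`.
-/

set_option autoImplicit false

namespace Pool.Agent.W3e58c0h78

open Set Topology

variable {Y A : Type} (W : ℕ → List A → Y → Set Y) (t : ℕ → List A → Y → ℕ → List A)

/-- The position reached along a list of pairs (newest pair first). -/
def pos : List (Y × ℕ) → List A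
  | [] => []
  | a :: l => pos l ++ t l.length (pos l) a.1 a.2

/-- The region reached along a list of pairs (newest pair first). -/
def reg : List (Y × ℕ) → Set Y
  | [] => univ
  | a :: l => reg l ∩ W l.length (pos t l) a.1

/-- For each word `κ` of numbers the regions of the lists with second components `κ` form a locally
finite family. Proof by induction on `κ` (`κ = []` : only the empty list; `κ = k :: κ'` : the lists
are `(y, k) :: l` with `l` of type `κ'`, a point has a neighbourhood meeting the region of only
finitely many `l`, and for each of these finitely many `l` a neighbourhood meeting only finitely many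
of the sets `W l.length (pos t l) y`, `y : Y`). -/
theorem reg_locallyFinite [TopologicalSpace Y] (hW : ∀ m s, LocallyFinite (W m s)) (κ : List ℕ) :
    LocallyFinite (fun l : {l : List (Y × ℕ) // l.map Prod.snd = κ} => reg W t l.1) := by
  induction κ with
  | nil =>
    have : Finite {l : List (Y × ℕ) // l.map Prod.snd = []} := by
      refine Finite.of_injective (β := Unit) (fun _ => ()) ?_
      rintro ⟨l, hl⟩ ⟨l', hl'⟩ _
      simp only [List.map_eq_nil_iff] at hl hl'
      subst hl
      subst hl'
      rfl
    exact locallyFinite_of_finite _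
  | cons k κ ih =>
    intro x
    obtain ⟨U, hU, hUf⟩ := ih x
    choose V hV hVf using fun l : {l : List (Y × ℕ) // l.map Prod.snd = κ} =>
      hW l.1.length (pos t l.1) x
    refine ⟨U ∩ ⋂ l ∈ {l : {l : List (Y × ℕ) // l.map Prod.snd = κ} |
      (reg W t l.1 ∩ U).Nonempty}, V l, Filter.inter_mem hU
        ((Filter.biInter_mem hUf).2 fun l _ => hV l), ?_⟩
    let F : {l : List (Y × ℕ) // l.map Prod.snd = κ} → Set (List (Y × ℕ)) := fun l =>
      (fun y : Y => (y, k) :: l.1) '' {y | (W l.1.length (pos t l.1) y ∩ V l).Nonempty}
    have hfin : (⋃ l ∈ {l : {l : List (Y × ℕ) // l.map Prod.snd = κ} |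
      (reg W t l.1 ∩ U).Nonempty}, F l).Finite := hUf.biUnion fun l _ => (hVf l).image _
    refine (hfin.preimage (f := Subtype.val) Subtype.val_injective.injOn).subset ?_
    rintro ⟨l, hl⟩ ⟨z, hz, hzU, hzV⟩
    match l, hl with
    | [], hl => simp at hl
    | a :: l', hl =>
      simp only [List.map_cons, List.cons.injEq] at hl
      obtain ⟨ha, hl'⟩ := hl
      rw [mem_preimage, mem_iUnion₂]
      have hmem : (reg W t l' ∩ U).Nonempty := ⟨z, hz.1, hzU⟩
      refine ⟨⟨l', hl'⟩, hmem, a.1, ⟨z, hz.2, ?_⟩, ?_⟩
      · exact mem_iInter₂.1 hzV ⟨l', hl'⟩ hmem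
      · show (a.1, k) :: l' = a :: l'
        rw [← ha]

end Pool.Agent.W3e58c0h78
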