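import Pool.Agent.W_3e58c0_h78.Kernel
import Pool.Agent.W_3e58c0_h78.Lind2
import Pool.Agent.W_3e58c0_h78.Rect
import Pool.Agent.W_3e58c0_h78.Reg

/-!
# The main theorem on continuous images (helper78)
-/

set_option autoImplicit false

namespace Pool.Agent.W3e58c0h78

open Set Topology

variable {X : Type} [TopologicalSpace X]

/-- Some set `H τ x` with `s` an initial part of `τ` meets `Q`. -/
def Tr (H : (ℕ → Mv X) → X → Set X) (Q : Set X) (s : List (Mv X)) : Prop :=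
  ∃ τ x, (∀ i, x ∈ cA (τ i)) ∧ Pre s τ ∧ (H τ x ∩ Q).Nonempty

/-- The compact kernel of a position. -/
def Ker (H : (ℕ → Mv X) → X → Set X) (Q : Set X) (s : List (Mv X)) : Set X :=
  cAs s \ ⋃ t : {t : List (Mv X) // ¬ Tr H Q (s ++ t)}, oAs t.1

theorem isClosed_Ker (H : (ℕ → Mv X) → X → Set X) (Q : Set X) (s : List (Mv X)) :
    IsClosed (Ker H Q s) :=
  (isClosed_cAs s).sdiff (isOpen_iUnion fun t => isOpen_oAs t.1)

theorem isCompact_Ker [LindelofSpace X] [NormalSpace X] [T1Space X]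
    (H : (ℕ → Mv X) → X → Set X) (Q : Set X)
    (hH : ∀ (s : List (Mv X)) (E : Exh X), ∃ m : ℕ,
        ∀ (τ : ℕ → Mv X) (x : X), (∀ i, x ∈ cA (τ i)) → ∀ j, m ≤ j →
          Pre (s ++ [(E, j)]) τ → Disjoint (H τ x) Q) (s : List (Mv X)) :
    IsCompact (Ker H Q s) := by
  refine isCompact_of_exh _ (isClosed_Ker H Q s) fun E => ?_
  obtain ⟨m, hm⟩ := hH s E
  refine ⟨m, fun x hx => ?_⟩
  obtain ⟨j, hj⟩ := exists_mem_oA E x
  have hjm : j < m := by
    by_contra hle
    push Not at hle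
    refine hx.2 ?_
    have hnT : ¬ Tr H Q (s ++ [(E, j)]) := by
      rintro ⟨τ, x', h1, h2, h3⟩
      exact h3.ne_empty (disjoint_iff_inter_eq_empty.1 (hm τ x' h1 j hle h2))
    refine mem_iUnion.2 ⟨⟨[(E, j)], hnT⟩, ?_⟩
    intro a ha
    rw [List.mem_singleton] at ha
    rw [ha]; exact hj
  exact E.mono (by omega) (mem_G_of_mem_oA hj)

/-- One step of the construction. -/
theorem step [LindelofSpace X] [NormalSpace X] [T1Space X] {Z Y : Type}
    [TopologicalSpace Z] [T3Space Z] [TopologicalSpace Y] [T3Space Y]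
    {f : X → Z} (hf : Continuous f)
    (H : (ℕ → Mv X) → X → Set X) (Q : Set X)
    (hH : ∀ (s : List (Mv X)) (E : Exh X), ∃ m : ℕ,
        ∀ (τ : ℕ → Mv X) (x : X), (∀ i, x ∈ cA (τ i)) → ∀ j, m ≤ j →
          Pre (s ++ [(E, j)]) τ → Disjoint (H τ x) Q)
    {A B : Set (Z × Y)} (hA : IsClosed A) (hB : IsClosed B) (hAB : Disjoint A B)
    (s : List (Mv X)) (y : Y) :
    ∃ (V : Set Y) (G₁ G₂ : Set Z) (t : ℕ → List (Mv X)), IsOpen V ∧ y ∈ V ∧ IsOpen G₁ ∧
      IsOpen G₂ ∧ Disjoint (closure G₁ ×ˢ closure V) B ∧ Disjoint (closure G₂ ×ˢ closure V) A ∧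
      ∀ x ∈ cAs s, f x ∈ G₁ ∪ G₂ ∨ ∃ k, x ∈ oAs (t k) ∧ ¬ Tr H Q (s ++ t k) := by
  classical
  have hK := isCompact_Ker H Q hH s
  obtain ⟨V, G₁, G₂, hV, hyV, hG₁, hG₂, hKG, h1, h2⟩ :=
    good_rect hA hB hAB (f '' Ker H Q s) (hK.image hf) y
  set R : Set X := cAs s \ f ⁻¹' (G₁ ∪ G₂) with hR
  have hRc : IsClosed R := (isClosed_cAs s).sdiff ((hG₁.union hG₂).preimage hf)
  have hRL : IsLindelof R := hRc.isLindelof
  have hcov : R ⊆ ⋃ t : {t : List (Mv X) // ¬ Tr H Q (s ++ t)}, oAs t.1 := by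
    intro x hx
    by_contra hx'
    exact hx.2 (hKG ⟨x, ⟨hx.1, hx'⟩, rfl⟩)
  obtain ⟨r, hrc, hr⟩ := hRL.elim_countable_subcover
    (fun t : {t : List (Mv X) // ¬ Tr H Q (s ++ t)} => oAs t.1) (fun t => isOpen_oAs t.1) hcov
  rcases r.eq_empty_or_nonempty with h0 | hne
  · refine ⟨V, G₁, G₂, fun _ => [], hV, hyV, hG₁, hG₂, h1, h2, fun x hx => Or.inl ?_⟩
    by_contra hx'
    have := hr (show x ∈ R from ⟨hx, hx'⟩)
    simp [h0] at this
  · obtain ⟨e, he⟩ := hrc.exists_eq_range hne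
    refine ⟨V, G₁, G₂, fun k => (e k).1, hV, hyV, hG₁, hG₂, h1, h2, fun x hx => ?_⟩
    by_cases hx' : f x ∈ G₁ ∪ G₂
    · exact Or.inl hx'
    · right
      have := hr (show x ∈ R from ⟨hx, hx'⟩)
      simp only [mem_iUnion] at this
      obtain ⟨t, ht, hxt⟩ := this
      rw [he] at ht
      obtain ⟨k, hk⟩ := ht
      refine ⟨k, ?_, ?_⟩
      · show x ∈ oAs (e k).1
        rw [hk]; exact hxt
      · exact (e k).2

/-- The limit of an increasing sequence of lists. -/
theorem exists_limit (s : ℕ → List (Mv X)) (hs : ∀ m, ∃ u, s (m + 1) = s m ++ u) (x : X)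
    (hx : ∀ m, x ∈ cAs (s m)) : ∃ τ : ℕ → Mv X, (∀ m, Pre (s m) τ) ∧ ∀ i, x ∈ cA (τ i) := by
  classical
  have hpre : ∀ m n, m ≤ n → s m <+: s n := by
    intro m n hmn
    induction n, hmn using Nat.le_induction with
    | base => exact List.prefix_rfl
    | succ n _ ih =>
      obtain ⟨u, hu⟩ := hs n
      rw [hu]
      exact ih.trans (List.prefix_append _ _)
  refine ⟨fun i => if h : ∃ m, i < (s m).length then
      (s (Nat.find h))[i]'(Nat.find_spec h) else (Exh.triv X, 0), ?_, ?_⟩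
  · intro m i hi
    have h : ∃ m, i < (s m).length := ⟨m, hi⟩
    simp only [h, dif_pos]
    have hle : Nat.find h ≤ m := Nat.find_min' h hi
    have hp := hpre _ _ hle
    rw [List.getElem?_eq_getElem hi]
    congr 1
    exact (List.IsPrefix.getElem hp (Nat.find_spec h)).symm
  · intro i
    by_cases h : ∃ m, i < (s m).length
    · simp only [h, dif_pos]
      exact hx (Nat.find h) _ (List.getElem_mem _)
    · simp only [h, dif_neg, not_false_eq_true]
      exact mem_cA_triv x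

/-- The condition on the assignment of compact sets to positions. -/
def QCond (Q : ℕ → List (Mv X) → Set X) : Prop :=
  (∀ m s, IsCompact (Q m s)) ∧
  ∀ s : ℕ → List (Mv X), (∀ m, ∃ u, s (m + 1) = s m ++ u) → (∃ x, ∀ m, x ∈ cAs (s m)) →
    ∃ x' ∈ closure (⋃ m, Q m (s m)), ∀ m, x' ∈ cAs (s m)

section main

variable {Z Y : Type} [TopologicalSpace Z] [TopologicalSpace Y]
variable (G : ℕ → List (Mv X) → Y → Set Z) (t : ℕ → List (Mv X) → Y → ℕ → List (Mv X))
variable (W : ℕ → List (Mv X) → Y → Set Y)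

/-- The first factor of the rectangle of a list. -/
def gg : List (Y × ℕ) → Set Z
  | [] => ∅
  | a :: l => G l.length (pos t l) a.1

/-- The union of the rectangles of a word. -/
def OO (κ : List ℕ) : Set (Z × Y) :=
  ⋃ l : {l : List (Y × ℕ) // l.map Prod.snd = κ}, gg G t l.1 ×ˢ reg W t l.1

theorem isOpen_reg (hW : ∀ m s y, IsOpen (W m s y)) (l : List (Y × ℕ)) : IsOpen (reg W t l) := by
  induction l with
  | nil => exact isOpen_univ
  | cons a l ih => exact ih.inter (hW _ _ _)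

omit [TopologicalSpace Y] in
theorem isOpen_gg (hG : ∀ m s y, IsOpen (G m s y)) (l : List (Y × ℕ)) : IsOpen (gg G t l) := by
  cases l with
  | nil => exact isOpen_empty
  | cons a l => exact hG _ _ _

theorem isOpen_OO (hG : ∀ m s y, IsOpen (G m s y)) (hW : ∀ m s y, IsOpen (W m s y))
    (κ : List ℕ) : IsOpen (OO G t W κ) :=
  isOpen_iUnion fun l => (isOpen_gg G t hG l.1).prod (isOpen_reg t W hW l.1)

theorem disjoint_closure_OO (hWl : ∀ m s, LocallyFinite (W m s))
    {B : Set (Z × Y)} (hB : ∀ m s y, Disjoint (closure (G m s y) ×ˢ closure (W m s y)) B)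
    (κ : List ℕ) : Disjoint (closure (OO G t W κ)) B := by
  have hlf : LocallyFinite (fun l : {l : List (Y × ℕ) // l.map Prod.snd = κ} =>
      gg G t l.1 ×ˢ reg W t l.1) := by
    have h1 := (reg_locallyFinite W t hWl κ).preimage_continuous (continuous_snd (X := Z))
    exact h1.subset fun l p hp => hp.2
  rw [OO, hlf.closure_iUnion, disjoint_iUnion_left]
  rintro ⟨l, hl⟩
  simp only
  cases l with
  | nil => simp [gg]
  | cons a l =>
    refine (hB l.length (pos t l) a.1).mono_left ?_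
    rw [closure_prod_eq]
    exact prod_mono subset_rfl (closure_mono inter_subset_right)

end main

theorem hasSeparatingCover_of_countable {T : Type} [TopologicalSpace T] {A B : Set T}
    {I : Type} [Countable I] (O : I → Set T) (hO : ∀ i, IsOpen (O i))
    (hc : A ⊆ ⋃ i, O i) (hd : ∀ i, Disjoint (closure (O i)) B) : HasSeparatingCover A B := by
  classical
  rcases isEmpty_or_nonempty I with h | h
  · refine ⟨fun _ => ∅, ?_, fun n => ⟨isOpen_empty, by simp⟩⟩
    simpa using hc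
  · obtain ⟨e, he⟩ := exists_surjective_nat I
    refine ⟨fun n => O (e n), ?_, fun n => ⟨hO _, hd _⟩⟩
    intro x hx
    obtain ⟨i, hi⟩ := mem_iUnion.1 (hc hx)
    obtain ⟨n, hn⟩ := he i
    exact mem_iUnion.2 ⟨n, by rw [hn]; exact hi⟩

/-- **Main theorem.** -/
theorem normal_prod_of_QCond (hX : InNP X) [LindelofSpace X]
    (Q : ℕ → List (Mv X) → Set X) (hQ : QCond Q)
    {Z Y : Type} [TopologicalSpace Z] [T3Space Z] [TopologicalSpace Y] [ParacompactSpace Y]
    [T2Space Y] {f : X → Z} (hf : Continuous f) (hs : Function.Surjective f) :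
    NormalSpace (Z × Y) := by
  classical
  have _i1 : T1Space X := hX.1
  have _i2 : NormalSpace X := by
    have _i3 := hX.2 PUnit
    exact (Homeomorph.prodPUnit X).symm.isClosedEmbedding.normalSpace
  obtain ⟨H, hH1, hH2⟩ := kernel hX
  refine ⟨fun A B hA hB hAB => ?_⟩
  have hstep := fun (m : ℕ) (s : List (Mv X)) (y : Y) =>
    step hf H (Q m s) (hH2 (Q m s) (hQ.1 m s)) hA hB hAB s y
  choose V G₁ G₂ t hV hyV hG₁ hG₂ hB1 hA2 hcov using hstep
  have href := fun (m : ℕ) (s : List (Mv X)) =>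
    precise_refinement (V m s) (hV m s) (by
      refine eq_univ_of_forall fun y => mem_iUnion.2 ⟨y, hyV m s y⟩)
  choose W hWo hWc hWl hWV using href
  have key : ∀ z y, ∃ κ, (z, y) ∈ OO G₁ t W κ ∪ OO G₂ t W κ := by
    intro z y
    obtain ⟨x, rfl⟩ := hs z
    by_contra hcon
    push Not at hcon
    -- one step
    have hst : ∀ l : {l : List (Y × ℕ) // x ∈ cAs (pos t l) ∧ y ∈ reg W t l},
        ∃ l' : {l : List (Y × ℕ) // x ∈ cAs (pos t l) ∧ y ∈ reg W t l},
          l'.1.length = l.1.length + 1 ∧ (∃ u, pos t l'.1 = pos t l.1 ++ u) ∧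
          ¬ Tr H (Q l.1.length (pos t l.1)) (pos t l'.1) := by
      rintro ⟨l, hl1, hl2⟩
      have hy : y ∈ ⋃ y', W l.length (pos t l) y' := by rw [hWc]; trivial
      obtain ⟨y', hy'⟩ := mem_iUnion.1 hy
      rcases hcov l.length (pos t l) y' x hl1 with h | ⟨k, hk1, hk2⟩
      · exfalso
        refine hcon (List.map Prod.snd ((y', 0) :: l)) ?_
        rcases h with h | h
        · left
          exact mem_iUnion.2 ⟨⟨(y', 0) :: l, rfl⟩, ⟨h, ⟨hl2, hy'⟩⟩⟩
        · right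
          exact mem_iUnion.2 ⟨⟨(y', 0) :: l, rfl⟩, ⟨h, ⟨hl2, hy'⟩⟩⟩
      · refine ⟨⟨(y', k) :: l, ?_, ⟨hl2, hy'⟩⟩, rfl, ⟨_, rfl⟩, hk2⟩
        show x ∈ cAs (pos t l ++ t l.length (pos t l) y' k)
        rw [cAs_append]
        exact ⟨hl1, oAs_subset_cAs _ hk1⟩
    choose nxt hn1 hn2 hn3 using hst
    let L : ℕ → {l : List (Y × ℕ) // x ∈ cAs (pos t l) ∧ y ∈ reg W t l} := fun m =>
      Nat.rec ⟨[], by simp [pos, cAs], trivial⟩ (fun _ l => nxt l) m
    have hL : ∀ m, L (m + 1) = nxt (L m) := fun m => rfl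
    have hlen : ∀ m, (L m).1.length = m := by
      intro m
      induction m with
      | zero => rfl
      | succ m ih => rw [hL, hn1, ih]
    obtain ⟨x', hx'1, hx'2⟩ := hQ.2 (fun m => pos t (L m).1) (fun m => by
      rw [hL]; exact hn2 (L m)) ⟨x, fun m => (L m).2.1⟩
    obtain ⟨τ, hτ1, hτ2⟩ := exists_limit (fun m => pos t (L m).1) (fun m => by
      rw [hL]; exact hn2 (L m)) x' hx'2
    obtain ⟨hHo, hHx⟩ := hH1 τ x' hτ2
    obtain ⟨w, hw1, hw2⟩ := mem_closure_iff.1 hx'1 (H τ x') hHo hHx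
    obtain ⟨m, hm⟩ := mem_iUnion.1 hw2
    have h3 := hn3 (L m)
    rw [hlen m, ← hL] at h3
    exact h3 ⟨τ, x', hτ2, hτ1 (m + 1), ⟨w, hw1, hm⟩⟩
  rw [← hasSeparatingCovers_iff_separatedNhds]
  have d1 : ∀ κ, Disjoint (closure (OO G₁ t W κ)) B := fun κ =>
    disjoint_closure_OO G₁ t W hWl (fun m s y => (hB1 m s y).mono_left
      (prod_mono subset_rfl (closure_mono (hWV m s y)))) κ
  have d2 : ∀ κ, Disjoint (closure (OO G₂ t W κ)) A := fun κ =>
    disjoint_closure_OO G₂ t W hWl (fun m s y => (hA2 m s y).mono_left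
      (prod_mono subset_rfl (closure_mono (hWV m s y)))) κ
  constructor
  · refine hasSeparatingCover_of_countable (OO G₁ t W) (isOpen_OO G₁ t W hG₁ hWo) ?_ d1
    rintro ⟨z, y⟩ hzy
    obtain ⟨κ, h | h⟩ := key z y
    · exact mem_iUnion.2 ⟨κ, h⟩
    · exact absurd hzy (disjoint_left.1 (d2 κ) (subset_closure h))
  · refine hasSeparatingCover_of_countable (OO G₂ t W) (isOpen_OO G₂ t W hG₂ hWo) ?_ d2
    rintro ⟨z, y⟩ hzy
    obtain ⟨κ, h | h⟩ := key z y
    · exact absurd hzy (disjoint_left.1 (d1 κ) (subset_closure h))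
    · exact mem_iUnion.2 ⟨κ, h⟩

end Pool.Agent.W3e58c0h78
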