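import Mathlib

/-!
# The tree space (helper78)

Given a family `τ : P → ℕ → E × ℕ` of infinite sequences, the space `TSp τ` has an isolated
point `pt p` for every `p : P` and a point `leaf s e` for every finite list `s` and `e : E`.
The basic neighbourhoods of `leaf s e` are `Nb τ s e n`: the point itself and all points whose
path starts with `s, (e, j)` for some `j ≥ n`.
-/

set_option autoImplicit false

namespace Pool.Agent.W3e58c0h78

open Set Topology

/-- Points of the tree space. -/
inductive TPt (E P : Type) : Type where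
  | leaf (s : List (E × ℕ)) (e : E) : TPt E P
  | pt (p : P) : TPt E P

variable {E P : Type}

/-- The tree space of a family of sequences. -/
def TSp (_τ : P → ℕ → E × ℕ) : Type := TPt E P

variable (τ : P → ℕ → E × ℕ)

/-- The path of a point: a finite sequence for a leaf, an infinite one for an isolated point. -/
def path : TSp τ → ℕ → Option (E × ℕ)
  | TPt.leaf s _ => fun i => s[i]?
  | TPt.pt p => fun i => some (τ p i)

/-- The set of points whose path starts with `s`. -/
def Cone (s : List (E × ℕ)) : Set (TSp τ) := {q | ∀ i, i < s.length → path τ q i = s[i]?}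

/-- Basic neighbourhoods of `leaf s e`. -/
def Nb (s : List (E × ℕ)) (e : E) (n : ℕ) : Set (TSp τ) :=
  {q | q = TPt.leaf s e ∨ ∃ j, n ≤ j ∧ q ∈ Cone τ (s ++ [(e, j)])}

theorem Nb_anti {s : List (E × ℕ)} {e : E} {m n : ℕ} (h : m ≤ n) : Nb τ s e n ⊆ Nb τ s e m := by
  rintro q (hq | ⟨j, hj, hq⟩)
  · exact Or.inl hq
  · exact Or.inr ⟨j, h.trans hj, hq⟩

instance : TopologicalSpace (TSp τ) where
  IsOpen U := ∀ s e, (TPt.leaf s e : TSp τ) ∈ U → ∃ n, Nb τ s e n ⊆ U
  isOpen_univ := fun _ _ _ => ⟨0, subset_univ _⟩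
  isOpen_inter := by
    intro U V hU hV s e hm
    obtain ⟨m, hm'⟩ := hU s e hm.1
    obtain ⟨n, hn'⟩ := hV s e hm.2
    exact ⟨max m n, subset_inter ((Nb_anti τ (le_max_left _ _)).trans hm')
      ((Nb_anti τ (le_max_right _ _)).trans hn')⟩
  isOpen_sUnion := by
    intro S hS s e hm
    obtain ⟨U, hU, hmU⟩ := hm
    obtain ⟨n, hn⟩ := hS U hU s e hmU
    exact ⟨n, hn.trans (subset_sUnion_of_mem hU)⟩

theorem isOpen_iff_Nb (U : Set (TSp τ)) :
    IsOpen U ↔ ∀ s e, (TPt.leaf s e : TSp τ) ∈ U → ∃ n, Nb τ s e n ⊆ U := Iff.rfl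

theorem isOpen_pt (p : P) : IsOpen ({(TPt.pt p : TSp τ)} : Set (TSp τ)) := by
  intro s e hm
  exact absurd hm (by intro h; cases h)

end Pool.Agent.W3e58c0h78
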