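import Pool.Agent.W_3e58c0_h78.TreeBasic

/-!
# The tree space is Hausdorff (helper78)
-/

set_option autoImplicit false

namespace Pool.Agent.W3e58c0h78

open Set Topology

variable {E P : Type} (τ : P → ℕ → E × ℕ)

theorem t2_mem_cons {s : List (E × ℕ)} {x : E × ℕ} {t : List (E × ℕ)} {q : TSp τ}
    (h : q ∈ Cone τ (s ++ x :: t)) : path τ q s.length = some x := by
  have h1 := h s.length (by simp)
  rw [h1]
  simp

theorem t2_leaf_none (s : List (E × ℕ)) (e : E) :
    path τ (TPt.leaf s e : TSp τ) s.length = none := by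
  show s[s.length]? = none
  simp

theorem t2_cone_mono {s s' : List (E × ℕ)} (h : s <+: s') : Cone τ s' ⊆ Cone τ s := by
  obtain ⟨t, rfl⟩ := h
  intro q hq i hi
  rw [hq i (by rw [List.length_append]; omega), List.getElem?_append_left hi]

theorem t2_prefix {s s' : List (E × ℕ)} {q : TSp τ} (h : q ∈ Cone τ s) (h' : q ∈ Cone τ s')
    (hl : s.length ≤ s'.length) : s <+: s' := by
  rw [List.prefix_iff_getElem?]
  intro i hi
  have h1 := h i hi
  rw [h' i (hi.trans_le hl)] at h1
  rw [h1, List.getElem?_eq_getElem hi]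

theorem t2_leaf_mem (s : List (E × ℕ)) (e : E) : (TPt.leaf s e : TSp τ) ∈ Cone τ s :=
  fun _ _ => rfl

theorem t2_leaf_prefix {s s' : List (E × ℕ)} {e : E} (h : (TPt.leaf s' e : TSp τ) ∈ Cone τ s) :
    s <+: s' := by
  rw [List.prefix_iff_getElem?]
  intro i hi
  have h1 : s'[i]? = s[i]? := h i hi
  rw [h1, List.getElem?_eq_getElem hi]

theorem t2_Nb_cone (s : List (E × ℕ)) (e : E) (n : ℕ) : Nb τ s e n ⊆ Cone τ s := by
  rintro q (rfl | ⟨j, -, hq⟩)
  · exact t2_leaf_mem τ s e
  · exact t2_cone_mono τ (List.prefix_append _ _) hq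

theorem t2_leaf_self (s : List (E × ℕ)) (e : E) (n : ℕ) : (TPt.leaf s e : TSp τ) ∈ Nb τ s e n :=
  Or.inl rfl

/-- Basic neighbourhoods are open. Proof: if `leaf s' e'` lies in `Nb τ s e n` and is not
`leaf s e`, then `s ++ [(e, j)]` is an initial part of `s'` for some `j ≥ n`, and then
`Nb τ s' e' 0` is contained in `Cone τ (s ++ [(e, j)])`, because all its points have a path
starting with `s'`. -/
theorem isOpen_Nb (s : List (E × ℕ)) (e : E) (n : ℕ) : IsOpen (Nb τ s e n) := by
  intro s' e' hm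
  rcases hm with hm | ⟨j, hj, hm⟩
  · injection hm with h1 h2
    subst h1 h2
    exact ⟨n, Subset.rfl⟩
  · refine ⟨0, fun q hq => Or.inr ⟨j, hj, ?_⟩⟩
    exact t2_cone_mono τ (t2_leaf_prefix τ hm) (t2_Nb_cone τ s' e' 0 hq)

theorem t2_pt_leaf (p : P) (s : List (E × ℕ)) (e : E) :
    ∃ n, (TPt.pt p : TSp τ) ∉ Nb τ s e n := by
  by_cases h : ∃ j, (TPt.pt p : TSp τ) ∈ Cone τ (s ++ [(e, j)])
  · obtain ⟨j, hj⟩ := h
    refine ⟨j + 1, ?_⟩
    rintro (h1 | ⟨j', hj', h1⟩)
    · cases h1
    · have h2 := t2_mem_cons τ hj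
      rw [t2_mem_cons τ h1] at h2
      injection h2 with h3
      injection h3 with h4 h5
      omega
  · refine ⟨0, ?_⟩
    rintro (h1 | ⟨j', -, h1⟩)
    · cases h1
    · exact h ⟨j', h1⟩

theorem t2_leaf_leaf (s s' : List (E × ℕ)) (e e' : E) (hl : s.length ≤ s'.length)
    (hne : (TPt.leaf s e : TSp τ) ≠ TPt.leaf s' e') :
    ∃ m n, Disjoint (Nb τ s e m) (Nb τ s' e' n) := by
  by_cases hp : s <+: s'
  · obtain ⟨t, rfl⟩ := hp
    cases t with
    | nil =>
      rw [List.append_nil] at hne ⊢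
      refine ⟨0, 0, ?_⟩
      rw [Set.disjoint_left]
      rintro q (rfl | ⟨j, -, h1⟩) (h2 | ⟨j', -, h2⟩)
      · exact hne h2
      · have h3 := t2_mem_cons τ h2
        rw [t2_leaf_none] at h3
        cases h3
      · subst h2
        have h3 := t2_mem_cons τ h1
        rw [t2_leaf_none] at h3
        cases h3
      · have h3 := t2_mem_cons τ h1
        rw [t2_mem_cons τ h2] at h3
        injection h3 with h4
        injection h4 with h5 h6
        exact hne (by rw [h5])
    | cons x t =>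
      refine ⟨x.2 + 1, 0, ?_⟩
      rw [Set.disjoint_left]
      intro q h1 h2
      have h3 := t2_mem_cons τ (t2_Nb_cone τ _ _ _ h2)
      rcases h1 with rfl | ⟨j, hj, h1⟩
      · rw [t2_leaf_none] at h3
        cases h3
      · rw [t2_mem_cons τ h1] at h3
        injection h3 with h4
        rw [← h4] at hj
        simp at hj
  · refine ⟨0, 0, ?_⟩
    rw [Set.disjoint_left]
    intro q h1 h2
    exact hp (t2_prefix τ (t2_Nb_cone τ _ _ _ h1) (t2_Nb_cone τ _ _ _ h2) hl)

/-- The tree space is Hausdorff. Proof: a point `pt p` is isolated, and if `q = leaf s e` and the path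
of `p` starts with `s ++ [(e, j)]` then `Nb τ s e (j + 1)` does not contain `pt p` (otherwise
`Nb τ s e 0` does not contain it). For two different leaves `leaf s e`, `leaf s' e'` with
`s.length ≤ s'.length`: if `s` is not an initial part of `s'` the neighbourhoods number `0` are
disjoint; if `s = s'` then `e ≠ e'` and again they are disjoint; if `s' = s ++ (e₁, j₁) :: _` then
`Nb τ s e (j₁ + 1)` and `Nb τ s' e' 0` are disjoint. -/
instance tsp_t2 : T2Space (TSp τ) := by
  refine ⟨fun x y hne => ?_⟩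
  cases x with
  | pt p =>
    cases y with
    | pt p' =>
      exact ⟨{(TPt.pt p : TSp τ)}, {(TPt.pt p' : TSp τ)}, isOpen_pt τ p, isOpen_pt τ p', rfl, rfl,
        Set.disjoint_singleton.2 hne⟩
    | leaf s e =>
      obtain ⟨n, hn⟩ := t2_pt_leaf τ p s e
      exact ⟨{(TPt.pt p : TSp τ)}, Nb τ s e n, isOpen_pt τ p, isOpen_Nb τ s e n, rfl,
        t2_leaf_self τ s e n, Set.disjoint_singleton_left.2 hn⟩
  | leaf s e =>
    cases y with
    | pt p =>
      obtain ⟨n, hn⟩ := t2_pt_leaf τ p s e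
      exact ⟨Nb τ s e n, {(TPt.pt p : TSp τ)}, isOpen_Nb τ s e n, isOpen_pt τ p,
        t2_leaf_self τ s e n, rfl, Set.disjoint_singleton_right.2 hn⟩
    | leaf s' e' =>
      rcases le_total s.length s'.length with hl | hl
      · obtain ⟨m, n, h⟩ := t2_leaf_leaf τ s s' e e' hl hne
        exact ⟨_, _, isOpen_Nb τ s e m, isOpen_Nb τ s' e' n, t2_leaf_self τ s e m,
          t2_leaf_self τ s' e' n, h⟩
      · obtain ⟨m, n, h⟩ := t2_leaf_leaf τ s' s e' e hl hne.symm
        exact ⟨_, _, isOpen_Nb τ s e n, isOpen_Nb τ s' e' m, t2_leaf_self τ s e n,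
          t2_leaf_self τ s' e' m, h.symm⟩

end Pool.Agent.W3e58c0h78
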